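import Mathlib
import Pool.Agent.Helper961.Aub.Base

/-!
Base definitions for the proof that the quotient Aubry set can be connected (MP_7d4c8f_an Q1).
The machine is the one of `Pool.Agent.Helper961.Aub` with base `bb = 4095` (digits `1..4095`
normal; the digit `mm = 4096` is carried, the digit `0` is borrowed).
-/

set_option autoImplicit false

open Set Filter Topology

namespace Pool.Agent.Y203.QC

open Pool.Agent.Aub (mm lam Stk dt stp Sc S1 S2 Qx gT gt cT ct hC hX Dg Ty stg rho mu posn peel cE cF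
  DD rb subTy subP subC sub broken)

noncomputable section

/-- the base -/
def bb : ℕ := 4095
/-- weight ratio between consecutive levels, `bb ^ 3` -/
def MM : ℝ := 68669157375

/-- removal part of the borrow (from the more significant digit `a`) -/
def bT (a b : ℝ) : ℝ := stp (1/4) (3/8) a * (1 - stp (3/8) (1/2) b)
/-- addition part of the borrow (to the less significant digit `b`) -/
def bt (a b : ℝ) : ℝ := stp (1/2) (3/4) a * (1 - stp (1/8) (1/4) b)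

/-- carry and borrow between two neighbouring digits, `a` more significant than `b` -/
def carryHi (a b : ℝ) : ℝ := a + ct a b - bT a b
def carryLo (a b : ℝ) : ℝ := b - bb * cT a b + bb * bt a b

/-- signed reading -/
def Sg (t : ℝ) : ℝ := Sc t - Sc (-t)

/-- the three digits pushed on the target stack; `a` the digits read, `t` incoming carry -/
def GG (a0 a1 a2 t : ℝ) : Fin 3 → ℝ :=
  ![carryHi a0 (carryHi a1 (a2 + t)),
    carryLo a0 (carryHi a1 (a2 + t)),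
    carryLo a1 (a2 + t)]

/-! ### The relation used in the lower bound -/

/-- value of three digits -/
def Vz (g : Fin 3 → ℤ) : ℝ := (bb : ℝ) ^ 2 * g 0 + bb * g 1 + g 2

/-- flags: nothing, debit (carry), credit (borrow) -/
inductive Fl | n | d | c
deriving DecidableEq

/-- number of debits -/
def Fl.deb : Fl → ℕ
  | .n => 0
  | .d => 1
  | .c => 0

/-- number of credits -/
def Fl.cre : Fl → ℕ
  | .n => 0
  | .d => 0
  | .c => 1

/-- combination, one of the two is `n` -/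
def Fl.or : Fl → Fl → Fl
  | .n, f => f
  | f, _ => f

/-- the change of the first digit of the target by the flag -/
def Fl.chg : Fl → ℝ
  | .n => 0
  | .d => -(bb : ℝ)
  | .c => (bb : ℝ)

/-- data part of a move from stack `s` to stack `d` -/
def DatRel (s d : Fin 3) (β : ℝ) (z z' : Stk) : Prop :=
  ∃ (f : Fl) (g : Fin 3 → ℤ),
    (f = Fl.d → β = 0 ∧ (z d 0 ≤ 1/8 ∨ 7/8 ≤ z d 0) ∧
      (mm : ℝ) - 1/4 ≤ z d 2 ∧ z d 2 ≤ mm + 1/4) ∧
    (f = Fl.c → β = 0 ∧ (z d 0 ≤ 1/8 ∨ 7/8 ≤ z d 0) ∧ z d 2 ≤ 1/4) ∧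
    Vz g + f.cre ≤ Vz (fun k => Dg 0 (z s (dt k))) + f.deb ∧
    ∀ k : Fin 3,
      hX (z' s (dt k)) ≤ max (hX (lam * (hX (z s (dt k)) - Dg 0 (z s (dt k))))) 0 ∧
      -1/8 ≤ z' d (dt k) ∧ z' d (dt k) ≤ mm + 1/8 ∧
      Dg (1/16) (z' d (dt k)) ≤ g k ∧
      (Dg (1/16) (z' d (dt k)) = g k →
        hX (lam * (z' d (dt k) - g k)) ≤
          max (hX (hX (z d (dt k)) + (if k = 0 then f.chg else 0))) 0)

/-- a move of the top cell of `s` (with bit `b` equal to `β`) to `d` -/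
def MvB (s d : Fin 3) (β : ℝ) (z z' : Stk) : Prop :=
  hC (z' s 0) = hC (lam * (hC (z s 0) - β)) ∧
  |z' d 0 - (1 - β)| ≤ 1/16 ∧ hC (lam * (z' d 0 - (1 - β))) = hC (z d 0) ∧
  (z s 1 ≤ 1/4 → hC (z' s 1) = hC (lam * hC (z s 1))) ∧
  (3/4 ≤ z s 1 → hC (z' s 1) = hC (lam * (hC (z s 1) - 1))) ∧
  (β = 1 → |z' d 1| ≤ 1/16 ∧ hC (lam * z' d 1) = hC (z d 1)) ∧
  (β = 0 → (z d 1 ≤ 1/4 → |z' d 1 - 1| ≤ 1/16 ∧ hC (lam * (z' d 1 - 1)) = hC (z d 1)) ∧
    (3/4 ≤ z d 1 → |z' d 1| ≤ 1/16 ∧ hC (lam * z' d 1) = hC (z d 1))) ∧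
  DatRel s d β z z'

def Mv (s d : Fin 3) (z z' : Stk) : Prop :=
  (z s 0 ≤ 1/4 → MvB s d 0 z z') ∧ (3/4 ≤ z s 0 → MvB s d 1 z z')

/-- one tick of the machine with orientation `δ` and virtual tower at peg `p` -/
def TickRel (δ : Fin 3) (ty : Ty) (p : Fin 3) (z z' : Stk) : Prop :=
  (∀ tr, z' p tr = z p tr) ∧
  (ty = Ty.E → Mv (p - δ) (p + δ) z z') ∧
  (ty = Ty.F → (z p 1 ≤ 1/4 → Mv (p + δ) (p - δ) z z') ∧
    (3/4 ≤ z p 1 → Mv (p - δ) (p + δ) z z'))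

/-- cost of raising arbitrarily data track `k` -/
def kap (k : Fin 3) : ℝ := (mm : ℝ) * (bb : ℝ) ^ (2 - k.1) / (MM - 1)

/-- one coordinate of `Md`; `f` says whether a debit or a credit is taken here, `κ` is the price,
`pd` the amount paid, `t` the old and `t'` the new value -/
def Cd (f : Fl) (κ pd ν t t' : ℝ) : Prop :=
  (f = Fl.n → κ ≤ pd ∨ t' ≤ max t 0 + ν) ∧
  (f = Fl.d →
    ((mm : ℝ) - 1/4 - ν ≤ max t 0 ∧
      ((t' ≤ max (t - bb) 0 + ν ∧ t' ≤ 1 + 1/4 + 2 * ν) ∨ κ ≤ pd)) ∨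
    (κ ≤ pd ∧ (t' ≤ 1 + 1/4 + 2 * ν ∨ 2 * κ ≤ pd))) ∧
  (f = Fl.c → κ ≤ pd ∨ (t' ≤ max t 0 + bb + ν ∧ t' ≤ bb + 1/4 + 2 * ν))

/-- harmless modifications plus noise of size `ν`, credit `cr` and (if `f = d`) one debit or
(if `f = c`) one credit -/
def Md (ty : Ty) (p : Fin 3) (ν cr : ℝ) (f : Fl) (z z' : Stk) : Prop :=
  0 ≤ ν ∧ (∀ i, |z' i 0 - z i 0| ≤ ν) ∧
  (∀ i, |z' i 1 - z i 1| ≤ ν ∨ (1/4 - ν < z i 1 ∧ z i 1 < 3/4 + ν)) ∧
  (f ≠ Fl.n → ty = Ty.F ∧ (z p 0 ≤ 1/8 + ν ∨ 7/8 - ν ≤ z p 0)) ∧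
  ∃ pd : Fin 3 → Fin 3 → ℝ, (∀ i k, 0 ≤ pd i k) ∧ ∑ i, ∑ k, pd i k + f.cre ≤ cr ∧
    ∀ i k, Cd (if i = p ∧ k = 0 then f else Fl.n) (kap k) (pd i k) ν (z i (dt k)) (z' i (dt k))

/-- generalised trajectories; the arguments are: orientation, start type, peg and state,
current type, peg and state, energy before the last interval, noise of the last interval,
total credit, number of debits, number of ticks -/
inductive Tr (δ : Fin 3) (ty0 : Ty) (p0 : Fin 3) (z0 : Stk) :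
    Ty → Fin 3 → Stk → ℝ → ℝ → ℝ → ℕ → ℕ → Prop
  | base (ν cr : ℝ) (f : Fl) (z : Stk) (h : Md ty0 p0 ν cr f z0 z) :
      Tr δ ty0 p0 z0 ty0 p0 z 0 ν cr f.deb 0
  | step (ty : Ty) (p : Fin 3) (z : Stk) (e ν cr : ℝ) (d n : ℕ)
      (h : Tr δ ty0 p0 z0 ty p z e ν cr d n) (z1 z2 : Stk) (h1 : TickRel δ ty p z z1)
      (ν' cr' : ℝ) (f : Fl) (h2 : Md ty.other (p + δ) ν' cr' f z1 z2) :
      Tr δ ty0 p0 z0 ty.other (p + δ) z2 (e + ν ^ 2) ν' (cr + cr') (d + f.deb) (n + 1)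

open Classical in
/-- the potential, truncated at level `N` -/
def UU : ℕ → Bool → Fin 3 → Ty → Fin 3 → Stk → ℝ
  | 0, _, _, _, _, _ => 2
  | (N + 1), post, δ, ty, p, z =>
    match rb ty post (posn δ ty p) z with
    | none => 2
    | some β =>
      (Vz (DD ty post (posn δ ty p) z) +
        (if broken ty post (posn δ ty p) β z then 2
         else UU N post (-δ) (subTy ty β) (subP δ ty p) (sub δ ty post p β z))) / MM

end

end Pool.Agent.Y203.QC
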