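import Mathlib
import Pool.Agent.Y203.QC.Base
import Pool.Agent.Helper961.Aub.Mach

/-!
The physical machine (with borrow): the fields of the slots and their time one maps.
-/

set_option autoImplicit false

open Set Filter Topology

namespace Pool.Agent.Y203.QC

open Pool.Agent.Aub (mm lam Stk dt stp Sc S1 S2 Qx gT gt cT ct hC hX Dg Ty stg rho mu posn peel cE cF
  DD rb subTy subP subC sub broken Clamp Ix Zs stk reg mkz Wt f0 f1 f4 f6 g0 g1 M0 M4 M6 N1 tyj pj)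

noncomputable section

/-- slot fields -/
def f2 (d : Fin 3) (z : Zs) : Zs :=
  mkz 0 ![0, 0, 0, 0, 0, 0, 0, 0, 0, 0,
    (1 - Sc (reg z 1)) * (gT (stk z d 0) * cT (Qx (reg z 6)) (stk z d 2) -
      gt (stk z d 0) * bt (Qx (reg z 6)) (stk z d 2)),
    (1 - Sc (reg z 1)) * (gt (stk z d 0) * ct (Qx (reg z 6)) (stk z d 2) -
      gT (stk z d 0) * bT (Qx (reg z 6)) (stk z d 2))]

def f3 (b : Bool) (s d : Fin 3) (z : Zs) : Zs :=
  mkz (fun i tr => if i = s then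
      -(Wt b z * ![Sc (reg z 1), Sc (reg z 2), Qx (reg z 7), Qx (reg z 8), Qx (reg z 9)] tr)
    else if i = d ∧ tr = 2 then -(Wt b z * (bb * Sg (reg z 10))) else 0) 0

/-- the digits to be pushed -/
def pushed (r : ℝ) (z : Zs) : Fin 5 → ℝ :=
  ![1 - Sc (reg z 1), (1 - Sc (reg z 1)) * (1 - Sc (reg z 3)),
    Qx (GG (Qx (reg z 4)) (Qx (reg z 5)) (Qx (reg z 6)) (Sg (reg z 11)) 0 * (1 - r)),
    Qx (GG (Qx (reg z 4)) (Qx (reg z 5)) (Qx (reg z 6)) (Sg (reg z 11)) 1 * (1 - r)),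
    Qx (GG (Qx (reg z 4)) (Qx (reg z 5)) (Qx (reg z 6)) (Sg (reg z 11)) 2 * (1 - r))]

def f5 (b : Bool) (d : Fin 3) (r : ℝ) (z : Zs) : Zs :=
  mkz (fun i tr => if i = d then Wt b z * pushed r z tr else 0) 0

/-- conditional move -/
def cm (cc : Clamp (5/4)) (cx : Clamp (mm + 1/2)) (b : Bool) (s d : Fin 3) (r : ℝ)
    (z : Zs) : Zs :=
  let z0 := M0 cc cx s d z
  let z1 := z0 + f1 s d z0
  let z2 := z1 + f2 d z1
  let z3 := z2 + f3 b s d z2
  let z4 := M4 b s d z3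
  let z5 := z4 + f5 b d r z4
  M6 z5

/-- one tick of the machine -/
def tick (cc : Clamp (5/4)) (cx : Clamp (mm + 1/2)) (ty : Ty) (p : Fin 3) (r : ℝ)
    (z : Zs) : Zs :=
  N1 (cm cc cx false (p + 1) (p - 1) 0
    (cm cc cx true (p - 1) (p + 1) (if ty = Ty.E then r else 0) (z + g0 ty p z)))

/-- the field of slot `j` of the tick -/
def slotf (cc : Clamp (5/4)) (cx : Clamp (mm + 1/2)) (ty : Ty) (p : Fin 3) (r : ℝ)
    (j : Fin 16) : Zs → Zs :=
  ![g0 ty p,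
    f0 cc cx (p - 1) (p + 1), f1 (p - 1) (p + 1), f2 (p + 1), f3 true (p - 1) (p + 1),
    f4 true (p - 1) (p + 1), f5 true (p + 1) (if ty = Ty.E then r else 0), f6,
    f0 cc cx (p + 1) (p - 1), f1 (p + 1) (p - 1), f2 (p - 1), f3 false (p + 1) (p - 1),
    f4 false (p + 1) (p - 1), f5 false (p - 1) 0, f6,
    g1] j

end

end Pool.Agent.Y203.QC
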