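import Mathlib
import Pool.Agent.Y203.QC.Mach
import Pool.Agent.Helper961.Aub.Sym

/-!
The symbolic (exact) dynamics of the machine (with borrow).
-/

set_option autoImplicit false

open Set Filter Topology

namespace Pool.Agent.Y203.QC

open Pool.Agent.Aub (mm lam Stk dt stp Sc S1 S2 Qx gT gt cT ct hC hX Dg Ty stg rho mu posn peel cE cF
  DD rb subTy subP subC sub broken Clamp Ix Zs stk reg mkz Wt f0 f1 f4 f6 g0 g1 M0 M4 M6 N1 tyj pj
  Cell sT Dle vb tyn)

/-- the zero cell (normal digits are `1, ..., bb`) -/
def zc : Cell := ⟨false, false, fun _ => 1⟩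

/-- the next cell, lists are continued by zero cells -/
def hd : List Cell → Cell
  | [] => zc
  | a :: _ => a

/-- carry or borrow between two neighbouring digits `x` (more significant) and `y` -/
def low (x y : ℕ) : ℕ × ℕ :=
  if y = mm ∧ x < mm then (x + 1, 1) else if y = 0 ∧ 0 < x then (x - 1, bb) else (x, y)

/-- internal carry and borrow of the digits, `y` replaces the last digit -/
def carry (D : Fin 3 → ℕ) (y : ℕ) : Fin 3 → ℕ :=
  ![(low (D 0) (low (D 1) y).1).1, (low (D 0) (low (D 1) y).1).2, (low (D 1) y).2]

/-- joined carry from the next cell `e` to the moving cell `a` -/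
def tt (a e : Cell) : ℕ := if a.b = false ∧ e.D 0 = mm ∧ a.D 2 < mm then 1 else 0

/-- joined borrow -/
def uu (a e : Cell) : ℕ := if a.b = false ∧ e.D 0 = 0 ∧ 0 < a.D 2 then 1 else 0

/-- the moved cell -/
def newc (r : Bool) (a e : Cell) : Cell :=
  ⟨!a.b, !a.b && !e.c, if r then 0 else carry a.D (a.D 2 + tt a e - uu a e)⟩

/-- the first digit of the head is replaced -/
def setD (x : ℕ) : List Cell → List Cell
  | [] => []
  | a :: tl => ⟨a.b, a.c, Function.update a.D 0 x⟩ :: tl

/-- the effect of the joined carry or borrow on the rest -/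
def upd (a : Cell) (tl : List Cell) : List Cell :=
  if tt a (hd tl) = 1 then setD 1 tl else if uu a (hd tl) = 1 then setD bb tl else tl

def stE (r : Bool) : List Cell → List Cell
  | [] => [newc r zc zc]
  | a :: tl => newc r a (hd tl) :: upd a tl

def stF : List Cell → List Cell
  | [] => zc :: stE false []
  | a :: tl => a :: (if a.b then stF tl else stE false tl)

/-- symbolic step; `r` is the reset flag, only used in type `E` -/
def st (ty : Ty) (r : Bool) (l : List Cell) : List Cell :=
  match ty with
  | Ty.E => stE r l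
  | Ty.F => stF l

/-- validity of a configuration -/
def Val : Ty → List Cell → Prop
  | _, [] => True
  | ty, a :: tl => (ty = Ty.F → a.c = (a.b && !(hd tl).c)) ∧ Val (sT ty a.b) tl

noncomputable section

/-- the stacks of the empty configuration -/
def tl0 : Fin 5 → ℝ := ![0, 0, lam / (lam - 1), lam / (lam - 1), lam / (lam - 1)]

/-- the stacks of a configuration -/
def rl : Ty → Fin 3 → Fin 3 → List Cell → Stk
  | _, _, _, [] => fun _ tr => tl0 tr
  | ty, δ, p, a :: tl => fun i tr =>
      if i = posn δ ty p then a.val tr + rl (sT ty a.b) (-δ) (subP δ ty p) tl i tr / lam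
      else rl (sT ty a.b) (-δ) (subP δ ty p) tl i tr

end

/-- the first `N` cells have bit `b = 0` -/
def base : ℕ → List Cell → Prop
  | 0, _ => True
  | N + 1, l => (hd l).b = false ∧ base N l.tail

/-- `n` steps, starting with type `ty`; `r k` is the reset flag of step number `k` -/
def run : ℕ → (ℕ → Bool) → Ty → List Cell → List Cell
  | 0, _, _, l => l
  | n + 1, r, ty, l => run n (fun k => r (k + 1)) ty.other (st ty (r 0) l)

/-- first `N` cells (completed by zero cells) -/
def trunc : ℕ → List Cell → List Cell
  | 0, _ => []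
  | N + 1, l => hd l :: trunc N l.tail

/-- the cell number `i` -/
def cl (l : List Cell) (i : ℕ) : Cell := hd (l.drop i)

/-- all digits are normal, except possibly the first digit of cell number `j` -/
def Ex (j : ℕ) (l : List Cell) : Prop :=
  ∀ (i : ℕ) (k : Fin 3), (k = 0 ∧ i = j) ∨ (0 < (cl l i).D k ∧ (cl l i).D k < mm)

/-- the bit `c` vanishes where the bit `b` vanishes -/
def Cb (l : List Cell) : Prop := ∀ i : ℕ, (cl l i).b = false → (cl l i).c = false

end Pool.Agent.Y203.QC
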