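import Mathlib
import Pool.Agent.Y350.QC.XTickE

/-!
MP_7d4c8f_an: contraction of the registers at exact states
-/

set_option autoImplicit false

open Set Filter Topology

namespace Pool.Agent.Y203.QC

open Pool.Agent.Aub (mm lam Stk dt stp Sc S1 S2 Qx gT gt cT ct hC hX Dg Ty stg rho mu posn peel cE cF
  DD rb subTy subP subC sub broken Clamp Ix Zs stk reg mkz Wt f0 f1 f4 f6 g0 g1 M0 M4 M6 N1 tyj pj
  Cell sT Dle vb tyn X08_f1 X08_f2 X08_f3 X08_small X08_lam X08_R X08_stk_add X08_reg_add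
  X08_stk_mkz X08_reg_mkz X08_R_add X08_Wt X08_Sc1 X08_Sc0 X06_S1 X06_Qx X06_Sc X02_reg_add
  X02_reg_mkz X02_exp)

/-- exact readings of the source peg -/
def ExR (S : Stk) (s : Fin 3) : Prop :=
  (∃ β : Bool, vb β ≤ S s 0 ∧ S s 0 ≤ vb β + 1/16) ∧
  ∃ D : ℕ, D ≤ mm ∧ (D : ℝ) ≤ S s 4 ∧ S s 4 ≤ D + 1/16

theorem ExR_rl (l : List Cell) : Dle l → ∀ (ty : Ty) (δ p s : Fin 3), ExR (rl ty δ p l) s := by
  induction l with
  | nil =>
    intro _ ty δ p s
    refine ⟨⟨false, ?_, ?_⟩, 1, by norm_num [mm], ?_, ?_⟩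
    · simp [rl, tl0, vb]
    · simp [rl, tl0, vb]
    · show ((1 : ℕ) : ℝ) ≤ lam / (lam - 1)
      rw [le_div_iff₀ (by unfold lam; norm_num)]
      push_cast
      linarith
    · show lam / (lam - 1) ≤ ((1 : ℕ) : ℝ) + 1/16
      unfold lam
      norm_num
  | cons a tl ih =>
    intro hD ty δ p s
    have hDt : Dle tl := fun c hc => hD c (List.mem_cons_of_mem _ hc)
    by_cases hs : s = posn δ ty p
    · have e : ∀ tr, rl ty δ p (a :: tl) s tr =
          a.val tr + rl (sT ty a.b) (-δ) (subP δ ty p) tl s tr / lam := by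
        intro tr
        rw [rl]
        simp only
        rw [if_pos hs]
      have h5 := fun tr => rl_range tl hDt (sT ty a.b) (-δ) (subP δ ty p) s tr
      refine ⟨⟨a.b, ?_, ?_⟩, a.D 2, hD a List.mem_cons_self 2, ?_, ?_⟩
      · rw [e]
        have h7 := div_nonneg (h5 0).1 X08_lam.le
        have : a.val 0 = vb a.b := rfl
        rw [this]; linarith
      · rw [e]
        have h6 := X08_small (h5 0).2.1
        have : a.val 0 = vb a.b := rfl
        rw [this]; linarith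
      · rw [e]
        have h7 := div_nonneg (h5 4).1 X08_lam.le
        have : a.val 4 = (a.D 2 : ℝ) := rfl
        rw [this]; linarith
      · rw [e]
        have h6 := X08_small (h5 4).2.1
        have : a.val 4 = (a.D 2 : ℝ) := rfl
        rw [this]; linarith
    · have e : ∀ tr, rl ty δ p (a :: tl) s tr = rl (sT ty a.b) (-δ) (subP δ ty p) tl s tr := by
        intro tr
        rw [rl]
        simp only
        rw [if_neg hs]
      obtain ⟨⟨β, h1, h2⟩, D, h3, h4, h5⟩ := ih hDt (sT ty a.b) (-δ) (subP δ ty p) s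
      exact ⟨⟨β, by rw [e]; exact h1, by rw [e]; exact h2⟩, D, h3, by rw [e]; exact h4,
        by rw [e]; exact h5⟩

theorem cm_regk (cc : Clamp (5/4)) (cx : Clamp (mm + 1/2)) (b : Bool) (s d : Fin 3) (r : ℝ)
    (z : Zs) (k : Fin 12) (hk : k ≠ 0) :
    reg (cm cc cx b s d r z) k = Real.exp (-16) *
      (reg z k + reg (f1 s d (M0 cc cx s d z)) k +
        reg (f2 d (M0 cc cx s d z + f1 s d (M0 cc cx s d z))) k) := by
  obtain ⟨z1, z2, z3, z4, z5, h1, h2, h3, h4, h5, h6⟩ := X02_cm cc cx b s d r z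
  rw [h6, M6, X02_reg_mkz]
  simp only [hk, if_false]
  have a5 : reg z5 k = reg z4 k := by
    rw [h5, X02_reg_add]; simp [f5, X02_reg_mkz]
  have a4 : reg z4 k = reg z3 k := by rw [h4, M4, X02_reg_mkz]
  have a3 : reg z3 k = reg z2 k := by
    rw [h3, X02_reg_add]; simp [f3, X02_reg_mkz]
  have a2 : reg z2 k = reg z1 k + reg (f2 d z1) k := by rw [h2, X02_reg_add]
  have a1 : reg z1 k = reg z k + reg (f1 s d (M0 cc cx s d z)) k := by
    rw [h1, X02_reg_add]; rfl
  rw [a5, a4, a3, a2, a1, h1]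

theorem vec6 (a0 a1 a2 a3 a4 a5 a6 a7 a8 a9 a10 a11 : ℝ) :
    (![a0, a1, a2, a3, a4, a5, a6, a7, a8, a9, a10, a11] : Fin 12 → ℝ) 6 = a6 := rfl

theorem vec1 (a0 a1 a2 a3 a4 a5 a6 a7 a8 a9 a10 a11 : ℝ) :
    (![a0, a1, a2, a3, a4, a5, a6, a7, a8, a9, a10, a11] : Fin 12 → ℝ) 1 = a1 := rfl

theorem reg_f1_1 (s d : Fin 3) (z : Zs) : reg (f1 s d z) 1 = Sc (stk z s 0) := by
  unfold f1
  rw [X02_reg_mkz]
  exact vec1 _ _ _ _ _ _ _ _ _ _ _ _

theorem reg_f1_6 (s d : Fin 3) (z : Zs) : reg (f1 s d z) 6 = S1 (stk z s 4) := by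
  unfold f1
  rw [X02_reg_mkz]
  exact vec6 _ _ _ _ _ _ _ _ _ _ _ _

theorem reg_M0 (cc : Clamp (5/4)) (cx : Clamp (mm + 1/2)) (s d : Fin 3) (z : Zs) (k : Fin 12) :
    reg (M0 cc cx s d z) k = reg z k := by
  unfold M0
  rw [X02_reg_mkz]

theorem f1_congr (s d : Fin 3) {z w : Zs} (h : stk z = stk w) : f1 s d z = f1 s d w := by
  unfold f1
  rw [h]

theorem f2_congr (d : Fin 3) {z w : Zs} (h : stk z = stk w) (h1 : Sc (reg z 1) = Sc (reg w 1))
    (h6 : Qx (reg z 6) = Qx (reg w 6)) : f2 d z = f2 d w := by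
  unfold f2
  rw [h, h1, h6]

theorem M0_congr (cc : Clamp (5/4)) (cx : Clamp (mm + 1/2)) (s d : Fin 3) {z w : Zs}
    (h : stk z = stk w) : stk (M0 cc cx s d z) = stk (M0 cc cx s d w) := by
  unfold M0
  rw [X08_stk_mkz, X08_stk_mkz, h]

theorem cm_contr (cc : Clamp (5/4)) (cx : Clamp (mm + 1/2)) (b : Bool) (s d : Fin 3) (r : ℝ)
    (z w : Zs) (hzw : stk z = stk w) (hR : ∀ k, k ≠ 0 → |reg z k| ≤ 1/16)
    (hR' : ∀ k, k ≠ 0 → |reg w k| ≤ 1/16) (hM : stk (M0 cc cx s d z) = stk z)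
    (hE : ExR (stk z) s) (k : Fin 12) (hk : k ≠ 0) :
    reg (cm cc cx b s d r z) k - reg (cm cc cx b s d r w) k =
      Real.exp (-16) * (reg z k - reg w k) := by
  rw [cm_regk cc cx b s d r z k hk, cm_regk cc cx b s d r w k hk]
  have hM' : stk (M0 cc cx s d w) = stk z := by rw [← M0_congr cc cx s d hzw, hM]
  have e1 : f1 s d (M0 cc cx s d z) = f1 s d (M0 cc cx s d w) :=
    f1_congr s d (by rw [hM, hM'])
  have hst : ∀ v : Zs, stk (M0 cc cx s d v + f1 s d (M0 cc cx s d v)) = stk (M0 cc cx s d v) := by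
    intro v
    funext i tr
    rw [X08_stk_add]
    simp [f1, X08_stk_mkz]
  have hv1 : ∀ v : Zs, stk (M0 cc cx s d v) = stk z → |reg v 1| ≤ 1/16 →
      Sc (reg (M0 cc cx s d v + f1 s d (M0 cc cx s d v)) 1) = Sc (stk z s 0) := by
    intro v h1 h2
    have e : reg (M0 cc cx s d v + f1 s d (M0 cc cx s d v)) 1 = reg v 1 + Sc (stk z s 0) := by
      rw [X02_reg_add, reg_M0, reg_f1_1, h1]
    obtain ⟨⟨β, hb1, hb2⟩, -⟩ := hE
    have e2 : Sc (stk z s 0) = vb β := X06_Sc (by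
      rw [abs_le]; constructor <;> linarith)
    rw [e, e2]
    refine X06_Sc ?_
    have := abs_le.1 h2
    rw [abs_le]; constructor <;> linarith [this.1, this.2]
  have hv6 : ∀ v : Zs, stk (M0 cc cx s d v) = stk z → |reg v 6| ≤ 1/16 →
      Qx (reg (M0 cc cx s d v + f1 s d (M0 cc cx s d v)) 6) = S1 (stk z s 4) := by
    intro v h1 h2
    have e : reg (M0 cc cx s d v + f1 s d (M0 cc cx s d v)) 6 = reg v 6 + S1 (stk z s 4) := by
      rw [X02_reg_add, reg_M0, reg_f1_6, h1]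
    obtain ⟨-, D, hD, hb1, hb2⟩ := hE
    have e2 : S1 (stk z s 4) = D := X06_S1 hD (by linarith) (by linarith)
    rw [e, e2]
    refine X06_Qx hD ?_
    rw [add_sub_cancel_right]
    exact h2
  have e2 : f2 d (M0 cc cx s d z + f1 s d (M0 cc cx s d z)) =
      f2 d (M0 cc cx s d w + f1 s d (M0 cc cx s d w)) := by
    refine f2_congr d ?_ ?_ ?_
    · rw [hst, hst, hM, hM']
    · rw [hv1 z hM (hR 1 (by decide)), hv1 w hM' (hR' 1 (by decide))]
    · rw [hv6 z hM (hR 6 (by decide)), hv6 w hM' (hR' 6 (by decide))]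
  rw [e2, e1]
  ring

/-- the stacks after the first conditional move -/
theorem mid_exact (cc : Clamp (5/4)) (cx : Clamp (mm + 1/2)) (ty : Ty) (p : Fin 3)
    (l : List Cell) (hD : Dle l) (hv : Val ty l) :
    ∃ (ty' : Ty) (p' : Fin 3) (l' : List Cell), Dle l' ∧ ∀ z : Zs, (∀ k, |reg z k| ≤ 1/16) →
      stk z = rl ty 1 p l →
      stk (cm cc cx true (p - 1) (p + 1) (if ty = Ty.E then 0 else 0) (z + g0 ty p z)) =
        rl ty' 1 p' l' := by
  have h10 : (1 : Fin 3) ≠ 0 := by decide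
  have hv' := (st_val ty false l hD hv).2
  have hpm : p - 1 ≠ p + 1 := (X08_f1 p 1 h10).1
  have pre : ∀ z : Zs, (∀ k, |reg z k| ≤ 1/16) → stk z = rl ty 1 p l →
      stk (z + g0 ty p z) = rl ty 1 p l ∧ (∀ k, k ≠ 0 → |reg (z + g0 ty p z) k| ≤ 1/16) ∧
      reg (z + g0 ty p z) 0 = reg z 0 + (if ty = Ty.E then 1 else Sc (stk z p 1)) := by
    intro z hR hz
    refine ⟨?_, ?_, ?_⟩
    · rw [← hz]
      funext i tr
      rw [X08_stk_add]
      simp [g0, X08_stk_mkz]
    · intro k hk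
      have : reg (z + g0 ty p z) k = reg z k := by
        rw [X08_reg_add]
        simp [g0, X08_reg_mkz, hk]
      rw [this]; exact hR k
    · rw [X08_reg_add]
      simp [g0, X08_reg_mkz]
  cases ty with
  | E =>
    refine ⟨Ty.F, p + 1, st Ty.E false l, hv', fun z hR hz => ?_⟩
    obtain ⟨hs1, hR1, hr10⟩ := pre z hR hz
    have hz0 := abs_le.1 (hR 0)
    have h1 : Sc (reg (z + g0 Ty.E p z) 0) = 1 := by
      apply X08_Sc1
      rw [hr10, if_pos rfl]
      linarith [hz0.1]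
    have := X08q_E cc cx true l 1 p h10 false (z + g0 Ty.E p z) hR1 (by simp [Wt, h1]) hs1 hD
    simpa [st] using this
  | F =>
    have hFE : ¬ (Ty.F = Ty.E) := by decide
    have hrd : ∀ z : Zs, stk z = rl Ty.F 1 p l →
        vb (hd l).c ≤ stk z p 1 ∧ stk z p 1 ≤ vb (hd l).c + 1 / 16 := by
      intro z hz
      rw [hz]
      cases l with
      | nil => simp [rl, hd, zc, vb, tl0]
      | cons a tl =>
        have hDt : Dle tl := fun c hc => hD c (List.mem_cons_of_mem _ hc)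
        have h5 := rl_range tl hDt (sT Ty.F a.b) (-1) (subP 1 Ty.F p) p 1
        have e1 : rl Ty.F 1 p (a :: tl) p 1 =
            vb a.c + rl (sT Ty.F a.b) (-1) (subP 1 Ty.F p) tl p 1 / lam := by
          simp [rl, posn, Cell.val]
        rw [e1]
        have h6 := X08_small h5.2.1
        have h7 := div_nonneg h5.1 X08_lam.le
        exact ⟨by simpa [hd] using h7, by simpa [hd] using h6⟩
    cases hc : (hd l).c with
    | true =>
      refine ⟨Ty.E, p + 1, st Ty.F false l, hv', fun z hR hz => ?_⟩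
      obtain ⟨hs1, hR1, hr10⟩ := pre z hR hz
      have hz0 := abs_le.1 (hR 0)
      have hrd' := hrd z hz
      rw [hc] at hrd'
      rw [if_neg hFE] at hr10
      have h0 : Sc (stk z p 1) = 1 := by
        apply X08_Sc1
        have := hrd'.1
        simp only [vb, if_true] at this
        linarith
      have h1 : Sc (reg (z + g0 Ty.F p z) 0) = 1 := by
        apply X08_Sc1
        rw [hr10, h0]
        linarith [hz0.1]
      have := X08q_F cc cx true l 1 p h10 (z + g0 Ty.F p z) hR1 (by simp [Wt, h1]) hs1 hD hv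
      rw [hc] at this
      simp only [if_true] at this
      rw [if_neg hFE]
      exact this
    | false =>
      refine ⟨Ty.F, p, l, hD, fun z hR hz => ?_⟩
      obtain ⟨hs1, hR1, hr10⟩ := pre z hR hz
      have hz0 := abs_le.1 (hR 0)
      have hrd' := hrd z hz
      rw [hc] at hrd'
      rw [if_neg hFE] at hr10
      have h0 : Sc (stk z p 1) = 0 := by
        apply X08_Sc0
        have := hrd'.2
        simp only [vb] at this
        norm_num at this
        linarith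
      have h1 : Sc (reg (z + g0 Ty.F p z) 0) = 0 := by
        apply X08_Sc0
        rw [hr10, h0]
        linarith [hz0.2]
      rw [cm_zero cc cx true (p - 1) (p + 1) hpm _ (z + g0 Ty.F p z) (by simp [Wt, h1])]
      exact X08q_M0 cc cx _ _ _ hD hs1

theorem tick_contr (cc : Clamp (5/4)) (cx : Clamp (mm + 1/2)) (ty : Ty) (p : Fin 3)
    (l : List Cell) (hD : Dle l) (hv : Val ty l) (z w : Zs)
    (hR : ∀ k, |reg z k| ≤ 1/16) (hR' : ∀ k, |reg w k| ≤ 1/16)
    (hz : stk z = rl ty 1 p l) (hw : stk w = rl ty 1 p l) (k : Fin 12) :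
    |reg (tick cc cx ty p 0 z) k - reg (tick cc cx ty p 0 w) k| ≤
      1/2 * |reg z k - reg w k| := by
  have h10 : (1 : Fin 3) ≠ 0 := by decide
  have hpm : p - 1 ≠ p + 1 := (X08_f1 p 1 h10).1
  have hexp : Real.exp (-16) ≤ 1/2 := X02_exp.trans (by norm_num)
  have hexp0 := Real.exp_pos (-16 : ℝ)
  obtain ⟨ty', p', l', hD', hmid⟩ := mid_exact cc cx ty p l hD hv
  have hr : ∀ v : Zs, (∀ k, |reg v k| ≤ 1/16) → stk v = rl ty 1 p l →
      stk (v + g0 ty p v) = rl ty 1 p l ∧ (∀ k, k ≠ 0 → reg (v + g0 ty p v) k = reg v k) ∧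
      reg (v + g0 ty p v) 0 = reg v 0 + (if ty = Ty.E then 1 else Sc (rl ty 1 p l p 1)) := by
    intro v hRv hv
    refine ⟨?_, ?_, ?_⟩
    · rw [← hv]
      funext i tr
      rw [X08_stk_add]
      simp [g0, X08_stk_mkz]
    · intro k hk
      rw [X08_reg_add]
      simp [g0, X08_reg_mkz, hk]
    · rw [X08_reg_add, ← hv]
      simp [g0, X08_reg_mkz]
  obtain ⟨a1, a2, a3⟩ := hr z hR hz
  obtain ⟨b1, b2, b3⟩ := hr w hR' hw
  set w1 : Zs := z + g0 ty p z with hw1
  set v1 : Zs := w + g0 ty p w with hv1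
  have a4 : ∀ k, k ≠ 0 → |reg w1 k| ≤ 1/16 := fun k hk => by rw [a2 k hk]; exact hR k
  have b4 : ∀ k, k ≠ 0 → |reg v1 k| ≤ 1/16 := fun k hk => by rw [b2 k hk]; exact hR' k
  set w2 : Zs := cm cc cx true (p - 1) (p + 1) (if ty = Ty.E then 0 else 0) w1 with hw2
  set v2 : Zs := cm cc cx true (p - 1) (p + 1) (if ty = Ty.E then 0 else 0) v1 with hv2
  have m1 : stk w2 = rl ty' 1 p' l' := hmid z hR hz
  have m2 : stk v2 = rl ty' 1 p' l' := hmid w hR' hw
  obtain ⟨c0, ck⟩ := cm_reg cc cx true (p - 1) (p + 1) hpm (if ty = Ty.E then 0 else 0) w1 a4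
  obtain ⟨d0, dk⟩ := cm_reg cc cx true (p - 1) (p + 1) hpm (if ty = Ty.E then 0 else 0) v1 b4
  have a5 : ∀ k, k ≠ 0 → |reg w2 k| ≤ 1/16 := fun k hk => (ck k hk).trans (by norm_num)
  have b5 : ∀ k, k ≠ 0 → |reg v2 k| ≤ 1/16 := fun k hk => (dk k hk).trans (by norm_num)
  obtain ⟨c0', -⟩ := cm_reg cc cx false (p + 1) (p - 1) hpm.symm 0 w2 a5
  obtain ⟨d0', -⟩ := cm_reg cc cx false (p + 1) (p - 1) hpm.symm 0 v2 b5
  have ht : ∀ v : Zs, tick cc cx ty p 0 v = N1 (cm cc cx false (p + 1) (p - 1) 0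
      (cm cc cx true (p - 1) (p + 1) (if ty = Ty.E then 0 else 0) (v + g0 ty p v))) :=
    fun v => rfl
  rw [ht z, ht w, ← hw1, ← hv1, ← hw2, ← hv2]
  by_cases hk : k = 0
  · subst hk
    unfold N1
    rw [X08_reg_mkz, X08_reg_mkz]
    simp only [if_true]
    rw [c0', d0', c0, d0, a3, b3, ← mul_sub, abs_mul, abs_of_pos hexp0]
    have e : reg z 0 + (if ty = Ty.E then 1 else Sc (rl ty 1 p l p 1)) -
        (reg w 0 + (if ty = Ty.E then 1 else Sc (rl ty 1 p l p 1))) = reg z 0 - reg w 0 := by ring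
    rw [e]
    exact mul_le_mul_of_nonneg_right hexp (abs_nonneg _)
  · unfold N1
    rw [X08_reg_mkz, X08_reg_mkz]
    simp only [hk, if_false]
    rw [cm_contr cc cx false (p + 1) (p - 1) 0 w2 v2 (by rw [m1, m2]) a5 b5
      (by rw [X08q_M0 cc cx _ _ w2 hD' m1, m1]) (by rw [m1]; exact ExR_rl l' hD' _ _ _ _) k hk,
      cm_contr cc cx true (p - 1) (p + 1) _ w1 v1 (by rw [a1, b1]) a4 b4
      (by rw [X08q_M0 cc cx _ _ w1 hD a1, a1]) (by rw [a1]; exact ExR_rl l hD _ _ _ _) k hk,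
      a2 k hk, b2 k hk, abs_mul, abs_mul, abs_of_pos hexp0]
    have h1 : Real.exp (-16) * |reg z k - reg w k| ≤ |reg z k - reg w k| := by
      have := mul_le_mul_of_nonneg_right (hexp.trans (by norm_num : (1/2 : ℝ) ≤ 1))
        (abs_nonneg (reg z k - reg w k))
      linarith
    calc Real.exp (-16) * (Real.exp (-16) * |reg z k - reg w k|)
        ≤ 1/2 * |reg z k - reg w k| :=
          mul_le_mul hexp h1 (by positivity) (by norm_num)

end Pool.Agent.Y203.QC
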