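import Mathlib
import Pool.Agent.Y350.QC.XTickE
import Pool.Agent.Y203.QC.XContr
import Pool.Agent.Y839.QC.XTick
import Pool.Agent.Y839.QC.ZSlot
import Pool.Agent.Y350.QC.XRange
import Pool.Agent.Helper961.Aub.ZFlow
import Pool.Agent.Helper961.Aub.ZY
import Pool.Agent.Helper961.Aub.ZPer

/-!
MP_7d4c8f_an, exact states over one period (with contraction of the registers)
-/

set_option autoImplicit false

open Set Filter Topology MeasureTheory

namespace Pool.Agent.Y203.QC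

open Pool.Agent.Aub (mm lam Stk dt stp Sc S1 S2 Qx gT gt cT ct hC hX Dg Ty stg rho mu posn peel cE cF
  DD rb subTy subP subC sub broken Clamp Ix Zs stk reg mkz Wt f0 f1 f4 f6 g0 g1 M0 M4 M6 N1 tyj pj
  Cell sT Dle vb tyn Jx EE mkp pz py pth LL psi Rho Realz Th yo PerField IsFlow action hT lat IsCurve
  flow_facts yo_facts Z10_tyn Z10_tyj Z10_pj Z10_mkz)

theorem Z10_run (r : Bool) (j : ℕ) : ∀ (ty : Ty) (l : List Cell),
    run (j + 1) (fun _ => r) ty l = st (tyn ty j) r (run j (fun _ => r) ty l) := by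
  induction j with
  | zero => intro ty l; rfl
  | succ j ih =>
    intro ty l
    have h1 := ih ty.other (st ty r l)
    rw [Z10_tyn] at h1
    exact h1

theorem Z10_stk (ty : Ty) (p : Fin 3) (l : List Cell) (hD : Dle l) (z : Zs)
    (hz : stk z = rl ty 1 p l) (i : Fin 3) (tr : Fin 5) : |stk z i tr| ≤ 4097 := by
  obtain ⟨h1, h2, _⟩ := rl_range l hD ty 1 p i tr
  rw [hz, abs_of_nonneg h1]
  have : (mm : ℝ) = 4096 := by norm_num [mm]
  rw [this] at h2
  linarith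

/-- the state after `j` ticks without reset -/
noncomputable def tk (cc : Clamp (5/4)) (cx : Clamp (mm + 1/2)) : ℕ → Zs → Zs
  | 0, z => z
  | j + 1, z => tick cc cx (tyj j) (pj j) 0 (tk cc cx j z)

theorem tk_facts (cc : Clamp (5/4)) (cx : Clamp (mm + 1/2)) (l : List Cell) (hD : Dle l)
    (hv : Val Ty.E l) (R : Fin 12 → ℝ) (hR : ∀ k, |R k| ≤ 1/16) : ∀ j : ℕ, j ≤ 6 →
    stk (tk cc cx j (mkz (rl Ty.E 1 0 l) R)) = rl (tyj j) 1 (pj j) (run j (fun _ => false) Ty.E l) ∧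
    (∀ k, |reg (tk cc cx j (mkz (rl Ty.E 1 0 l) R)) k| ≤ 1/16) ∧
    (0 < j → ∀ k, |reg (tk cc cx j (mkz (rl Ty.E 1 0 l) R)) k| ≤ 1/32) ∧
    Dle (run j (fun _ => false) Ty.E l) ∧ Val (tyj j) (run j (fun _ => false) Ty.E l) := by
  intro j
  induction j with
  | zero =>
    intro _
    exact ⟨rfl, hR, fun h0 => absurd h0 (lt_irrefl _), hD, hv⟩
  | succ j ih =>
    intro hj
    obtain ⟨h2, h3, _, h5, h6⟩ := ih (by omega)
    set z := tk cc cx j (mkz (rl Ty.E 1 0 l) R) with hz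
    have hS : ∀ i tr, |stk z i tr| ≤ 2 ^ 32 := fun i tr =>
      (Z10_stk _ _ _ h5 z h2 i tr).trans (by norm_num)
    have hex := tick_exact cc cx (tyj j) (pj j) false _ h5 h6 z h3 h2
    simp only [Bool.false_eq_true, if_false] at hex
    have hrel := tick_rel cc cx (tyj j) (pj j) 0 le_rfl zero_le_one z hS h3
    have hsv := st_val (tyj j) false _ h5 h6
    have hrun : run (j + 1) (fun _ => false) Ty.E l =
        st (tyj j) false (run j (fun _ => false) Ty.E l) := Z10_run false j Ty.E l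
    have htk : tk cc cx (j + 1) (mkz (rl Ty.E 1 0 l) R) = tick cc cx (tyj j) (pj j) 0 z := rfl
    rw [htk]
    refine ⟨?_, ?_, ?_, ?_, ?_⟩
    · rw [hex, hrun, Z10_tyj, Z10_pj j (by omega)]
    · intro k; exact (hrel.2.2 k).trans (by norm_num)
    · intro _ k; exact hrel.2.2 k
    · rw [hrun]; exact hsv.2
    · rw [hrun, ← Z10_tyj]; exact hsv.1

theorem tk_contr (cc : Clamp (5/4)) (cx : Clamp (mm + 1/2)) (l : List Cell) (hD : Dle l)
    (hv : Val Ty.E l) (R R' : Fin 12 → ℝ) (hR : ∀ k, |R k| ≤ 1/16) (hR' : ∀ k, |R' k| ≤ 1/16) :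
    ∀ j : ℕ, j ≤ 6 → ∀ k, |reg (tk cc cx j (mkz (rl Ty.E 1 0 l) R)) k -
      reg (tk cc cx j (mkz (rl Ty.E 1 0 l) R')) k| ≤ (1/2) ^ j * |R k - R' k| := by
  intro j
  induction j with
  | zero =>
    intro _ k
    rw [pow_zero, one_mul]
    exact le_rfl
  | succ j ih =>
    intro hj k
    obtain ⟨h2, h3, _, h5, h6⟩ := tk_facts cc cx l hD hv R hR j (by omega)
    obtain ⟨h2', h3', _, _, _⟩ := tk_facts cc cx l hD hv R' hR' j (by omega)
    have h1 := tick_contr cc cx (tyj j) (pj j) _ h5 h6 _ _ h3 h3' h2 h2' k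
    have h4 := ih (by omega) k
    calc _ ≤ 1/2 * |reg (tk cc cx j (mkz (rl Ty.E 1 0 l) R)) k -
          reg (tk cc cx j (mkz (rl Ty.E 1 0 l) R')) k| := h1
      _ ≤ 1/2 * ((1/2) ^ j * |R k - R' k|) := by gcongr
      _ = _ := by rw [pow_succ]; ring

theorem period_exact (cc : Clamp (5/4)) (cx : Clamp (mm + 1/2)) (rh : Rho) {F : EE → EE}
    {φ : ℝ → EE → EE} (h : Realz 97 (YY cc cx rh) LL F φ) (l : List Cell) (hD : Dle l)
    (hv : Val Ty.E l) :
    Dle (run 6 (fun _ => false) Ty.E l) ∧ Val Ty.E (run 6 (fun _ => false) Ty.E l) ∧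
    ∃ G : (Fin 12 → ℝ) → Fin 12 → ℝ,
      (∀ R : Fin 12 → ℝ, (∀ k, |R k| ≤ 1/16) → (∀ k, |G R k| ≤ 1/32) ∧
        φ LL (pt l R 0) = pt (run 6 (fun _ => false) Ty.E l) (G R) 0 +
          lat LL (Pi.single (Sum.inr 1) 1)) ∧
      ∀ R R' : Fin 12 → ℝ, (∀ k, |R k| ≤ 1/16) → (∀ k, |R' k| ≤ 1/16) → ∀ k,
        |G R k - G R' k| ≤ 1/2 * |R k - R' k| := by
  have hLL : (0 : ℝ) < LL := by unfold LL; positivity
  obtain ⟨_, _, _, _, _, _, hadd, _, _⟩ := flow_facts hLL h.smooth h.per h.flow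
  obtain ⟨_, _, _, _, _, hpsi0⟩ := yo_facts
  have hρ : rh.ρ 0 = 0 := by
    rw [rh.zero 0 le_rfl hLL.le ?_]
    rw [zero_sub, abs_neg, abs_of_pos (by positivity)]
    unfold LL
    norm_num
  have h00 : ∀ k : Fin 12, |(0 : Fin 12 → ℝ) k| ≤ 1/16 := by intro k; simp
  obtain ⟨_, _, _, hD6, hV6⟩ := tk_facts cc cx l hD hv 0 h00 6 le_rfl
  refine ⟨hD6, hV6, fun R => reg (tk cc cx 6 (mkz (rl Ty.E 1 0 l) R)), ?_, ?_⟩
  · intro R hR
    have key : ∀ j : ℕ, j ≤ 6 → φ (16 * j) (pt l R 0) =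
        mkp (tk cc cx j (mkz (rl Ty.E 1 0 l) R)) 0 (16 * j) := by
      intro j
      induction j with
      | zero =>
        intro _
        have : ((16 : ℝ) * ((0 : ℕ) : ℝ)) = 0 := by norm_num
        rw [this, h.flow.1]
        rfl
      | succ j ih =>
        intro hj
        have h1 := ih (by omega)
        obtain ⟨h2, h3, _, h5, h6⟩ := tk_facts cc cx l hD hv R hR j (by omega)
        have hS : ∀ i tr, |stk (tk cc cx j (mkz (rl Ty.E 1 0 l) R)) i tr| ≤ 2 ^ 32 := fun i tr =>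
          (Z10_stk _ _ _ h5 _ h2 i tr).trans (by norm_num)
        have hsl := slot_flow cc cx rh h 0 j (by omega) _ 0 hS h3
        rw [hρ] at hsl
        have e1 : (16 : ℝ) * ((j + 1 : ℕ) : ℝ) = 16 + 16 * j := by push_cast; ring
        rw [e1, hadd, h1]
        have e2 : (16 : ℝ) * j = ((0 : ℤ) : ℝ) * LL + 16 * j := by push_cast; ring
        rw [e2, hsl]
        show mkp _ _ _ = mkp _ _ _
        congr 1
        push_cast
        ring
    have h1 := key 6 le_rfl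
    obtain ⟨h2, h3, h4, h5, h6⟩ := tk_facts cc cx l hD hv R hR 6 le_rfl
    refine ⟨h4 (by norm_num), ?_⟩
    obtain ⟨z, hz⟩ : ∃ z, z = tk cc cx 6 (mkz (rl Ty.E 1 0 l) R) := ⟨_, rfl⟩
    rw [← hz] at h1 h2 h3
    show φ LL (pt l R 0) = pt _ (reg (tk cc cx 6 (mkz (rl Ty.E 1 0 l) R))) 0 + _
    rw [← hz]
    have hbd : ∀ i, |z i| ≤ LL / 4 := by
      have hL4 : (5000 : ℝ) ≤ LL / 4 := by unfold LL; norm_num
      intro i
      rcases i with ⟨a, b⟩ | k
      · exact (Z10_stk _ _ _ h5 z h2 a b).trans (by linarith)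
      · exact (h3 k).trans (by linarith)
    have hslot := h.slot ⟨96, by norm_num⟩ 0 (fun _ => z) (fun _ => 0) (fun u _ => ⟨by
      have e : YY cc cx rh ⟨96, by norm_num⟩ (z, 0) = (0, psi 0) := by
        unfold YY
        rw [dif_neg (by norm_num)]
      rw [e, hpsi0]
      exact (hasDerivAt_const u z).prodMk (hasDerivAt_const u 0), hbd⟩)
    have hidle := h.idle 0 z 0 (LL - 97) (by unfold LL; norm_num) (by norm_num)
    have e1 : (LL : ℝ) = (LL - 97) + (1 + 16 * ((6 : ℕ) : ℝ)) := by push_cast; ring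
    have e2 : φ LL (pt l R 0) = φ (LL - 97) (φ 1 (φ (16 * ((6 : ℕ) : ℝ)) (pt l R 0))) := by
      conv_lhs => rw [e1]
      rw [hadd, hadd]
    rw [e2, h1]
    have e3 : (16 : ℝ) * ((6 : ℕ) : ℝ) =
        ((0 : ℤ) : ℝ) * LL + (((⟨96, by norm_num⟩ : Fin 97) : ℕ) : ℝ) := by
      norm_num
    rw [e3, hslot]
    have e4 : ((0 : ℤ) : ℝ) * LL + (((⟨96, by norm_num⟩ : Fin 97) : ℕ) : ℝ) + 1 =
        ((0 : ℤ) : ℝ) * LL + ((97 : ℕ) : ℝ) := by
      norm_num
    rw [e4, hidle]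
    have e5 : pt (run 6 (fun _ => false) Ty.E l) (reg z) 0 = mkp z 0 0 := by
      have : rl Ty.E 1 0 (run 6 (fun _ => false) Ty.E l) = stk z := h2.symm
      unfold pt
      rw [this, Z10_mkz]
    rw [e5]
    ext i
    rcases i with i | i
    · simp [mkp, lat]
    · fin_cases i
      · simp [mkp, lat]
      · simp [mkp, lat]
  · intro R R' hR hR' k
    refine (tk_contr cc cx l hD hv R R' hR hR' 6 le_rfl k).trans ?_
    refine mul_le_mul_of_nonneg_right ?_ (abs_nonneg _)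
    norm_num

end Pool.Agent.Y203.QC
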