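import Mathlib
import Pool.Agent.Y203.QC.ZPer
import Pool.Agent.Helper961.Aub.ZRun

/-!
MP_7d4c8f_an, exact states over many periods
-/

set_option autoImplicit false

open Set Filter Topology MeasureTheory

namespace Pool.Agent.Y203.QC

open Pool.Agent.Aub (mm lam Stk dt stp Sc S1 S2 Qx gT gt cT ct hC hX Dg Ty stg rho mu posn peel cE cF
  DD rb subTy subP subC sub broken Clamp Ix Zs stk reg mkz Wt f0 f1 f4 f6 g0 g1 M0 M4 M6 N1 tyj pj
  Cell sT Dle vb tyn Jx EE mkp pz py pth LL psi Rho Realz Th yo PerField IsFlow action hT lat IsCurve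
  flow_facts yo_facts Z11_other_even Z11_lat_add Z11_lat_zero)

theorem Z11_run_add (a b : ℕ) (r : ℕ → Bool) (ty : Ty) (l : List Cell) :
    run (a + b) r ty l = run b (fun k => r (k + a)) (Ty.other^[a] ty) (run a r ty l) := by
  induction a generalizing r ty l with
  | zero => simp [run]
  | succ a ih =>
    have e : a + 1 + b = (a + b) + 1 := by omega
    rw [e]
    show run (a + b) (fun k => r (k + 1)) ty.other (st ty (r 0) l) =
      run b (fun k => r (k + (a + 1))) (Ty.other^[a] ty.other)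
        (run a (fun k => r (k + 1)) ty.other (st ty (r 0) l))
    rw [ih]
    rfl

theorem Z11_run_step (n : ℕ) (l : List Cell) :
    run (6 * (n + 1)) (fun _ => false) Ty.E l =
      run 6 (fun _ => false) Ty.E (run (6 * n) (fun _ => false) Ty.E l) := by
  have e : 6 * (n + 1) = 6 * n + 6 := by omega
  rw [e, Z11_run_add, Z11_other_even]

theorem run_zero (cc : Clamp (5/4)) (cx : Clamp (mm + 1/2)) (rh : Rho) {F : EE → EE}
    {φ : ℝ → EE → EE} (h : Realz 97 (YY cc cx rh) LL F φ) (n : ℕ) (l : List Cell)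
    (hD : Dle l) (hv : Val Ty.E l) :
    Dle (run (6 * n) (fun _ => false) Ty.E l) ∧
    Val Ty.E (run (6 * n) (fun _ => false) Ty.E l) ∧
    ∃ G : (Fin 12 → ℝ) → Fin 12 → ℝ,
      (∀ R : Fin 12 → ℝ, (∀ k, |R k| ≤ 1/32) → (∀ k, |G R k| ≤ 1/32) ∧ ∃ m : Jx → ℤ,
        φ (n * LL) (pt l R 0) = pt (run (6 * n) (fun _ => false) Ty.E l) (G R) 0 + lat LL m) ∧
      ∀ R R' : Fin 12 → ℝ, (∀ k, |R k| ≤ 1/32) → (∀ k, |R' k| ≤ 1/32) → ∀ k,
        |G R k - G R' k| ≤ (1/2) ^ n * |R k - R' k| := by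
  have hLL : (0 : ℝ) < LL := by unfold LL; positivity
  obtain ⟨K, B, hK, hB, _, _, hadd, hlat, _⟩ := flow_facts hLL h.smooth h.per h.flow
  induction n with
  | zero =>
    refine ⟨hD, hv, id, fun R hR => ⟨hR, 0, ?_⟩, fun R R' _ _ k => ?_⟩
    · have h0 : φ 0 (pt l R 0) = pt l R 0 := h.flow.1 _
      rw [Z11_lat_zero]
      simp only [Nat.cast_zero, zero_mul, h0, add_zero]
      rfl
    · rw [pow_zero, one_mul]; exact le_rfl
  | succ n ih =>
    obtain ⟨hD', hv', G, hG, hGc⟩ := ih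
    obtain ⟨hD'', hv'', G', hG', hGc'⟩ := period_exact cc cx rh h _ hD' hv'
    rw [Z11_run_step n l]
    refine ⟨hD'', hv'', fun R => G' (G R), fun R hR => ?_, fun R R' hR hR' k => ?_⟩
    · obtain ⟨h1, m, h2⟩ := hG R hR
      obtain ⟨h3, h4⟩ := hG' (G R) (fun k => (h1 k).trans (by norm_num))
      refine ⟨h3, Pi.single (Sum.inr 1) 1 + m, ?_⟩
      have e : ((n + 1 : ℕ) : ℝ) * LL = LL + n * LL := by push_cast; ring
      rw [e, hadd, h2, hlat, h4, add_assoc, Z11_lat_add]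
    · obtain ⟨h1, -⟩ := hG R hR
      obtain ⟨h1', -⟩ := hG R' hR'
      have h2 := hGc' (G R) (G R') (fun k => (h1 k).trans (by norm_num))
        (fun k => (h1' k).trans (by norm_num)) k
      have h3 := hGc R R' hR hR' k
      calc _ ≤ 1/2 * |G R k - G R' k| := h2
        _ ≤ 1/2 * ((1/2) ^ n * |R k - R' k|) := by gcongr
        _ = _ := by rw [pow_succ]; ring

end Pool.Agent.Y203.QC
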