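import Mathlib
import Pool.Agent.Y203.QC.Sym
import Pool.Agent.Helper961.Aub.Torus
import Pool.Agent.Helper961.Aub.Phys
import Pool.Agent.Helper981.QA.Base

/-!
The list of all slots of the clock (machine with borrow), values of configurations.
-/

set_option autoImplicit false

open Set Filter Topology MeasureTheory

namespace Pool.Agent.Y203.QC

open Pool.Agent.Aub (mm lam Stk dt stp Sc S1 S2 Qx gT gt cT ct hC hX Dg Ty stg rho mu posn peel cE cF
  DD rb subTy subP subC sub broken Clamp Ix Zs stk reg mkz Wt f0 f1 f4 f6 g0 g1 M0 M4 M6 N1 tyj pj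
  Cell sT Dle vb tyn Jx EE mkp pz py pth LL psi Rho Realz Th yo PerField IsFlow action hT lat IsCurve)

noncomputable section

/-- the fields of the `97` slots of one period of the clock -/
def YY (cc : Clamp (5/4)) (cx : Clamp (mm + 1/2)) (rh : Rho) (k : Fin 97)
    (x : Zs × ℝ) : Zs × ℝ :=
  if h : k.1 < 96 then
    (slotf cc cx (tyj (k.1 / 16)) (pj (k.1 / 16)) (rh.ρ x.2)
      ⟨k.1 % 16, Nat.mod_lt _ (by norm_num)⟩ x.1, 0)
  else (0, psi x.2)

/-- the state of a configuration at the beginning of a period -/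
def pt (l : List Cell) (R : Fin 12 → ℝ) (y : ℝ) : EE := mkp (mkz (rl Ty.E 1 0 l) R) y 0

/-- truncated value of a configuration -/
def vN : ℕ → List Cell → ℝ
  | 0, _ => 2
  | (N + 1), l => (Vz (fun k => ((hd l).D k : ℤ)) + vN N l.tail) / MM

/-- the value of the empty configuration -/
def v0 : ℝ := 1 / (bb - 1)

/-- value of a configuration -/
def val : List Cell → ℝ
  | [] => v0
  | a :: tl => (Vz (fun k => (a.D k : ℤ)) + val tl) / MM

/-- configurations without carries and borrows, all bits zero -/
def Good (l : List Cell) : Prop :=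
  ∀ a ∈ l, a.b = false ∧ a.c = false ∧ ∀ k, 0 < a.D k ∧ a.D k < mm

end

end Pool.Agent.Y203.QC
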