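import Mathlib
import Pool.Agent.Y26.QC.Q18
import Pool.Agent.Y26.QC.SStep
import Pool.Agent.Y220.QC.XClose
import Pool.Agent.Y203.QC.ZRun
import Pool.Agent.Helper981.QA.P08
import Pool.Agent.Helper981.QA.P09
import Pool.Agent.Helper981.QA.P10
import Pool.Agent.Helper981.QA.P13

/-!
MP_7d4c8f_an Q1: the distance between good states with nearby values is small
-/

set_option autoImplicit false

open Set Filter Topology MeasureTheory
open scoped ContDiff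

namespace Pool.Agent.Y203.QC

open Pool.Agent.Aub (mm lam Stk dt stp Sc S1 S2 Qx gT gt cT ct hC hX Dg Ty stg rho mu posn peel cE cF
  DD rb subTy subP subC sub broken Clamp Ix Zs stk reg mkz Wt f0 f1 f4 f6 g0 g1 M0 M4 M6 N1 tyj pj
  Cell sT Dle vb tyn Jx EE mkp pz py pth LL psi Rho Realz Th yo PerField IsFlow action hT lat IsCurve)
open Pool.Agent.QA (bN hT_move hT_concat hT_flow hT_lat gen_flow)

/-- one finite piece followed by the barrier -/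
theorem bN_piece {ι : Type} [Fintype ι] {P : ℝ}
    {F : EuclideanSpace ℝ ι → EuclideanSpace ℝ ι} (hF : PerField P F)
    (n : ℕ) (x y z : EuclideanSpace ℝ ι) : bN P F x z ≤ hT P F n x y + bN P F y z := by
  apply ENNReal.le_of_forall_pos_le_add
  intro ε hε hb
  rw [ENNReal.add_lt_top] at hb
  have hε2 : ((ε : ENNReal)) ≠ 0 := by
    exact_mod_cast hε.ne'
  have h2 := Pool.Agent.QA.P13_freq (u := fun n : ℕ => hT P F n y z) hb.2.ne hε2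
  unfold bN
  apply Filter.liminf_le_of_frequently_le'
  rw [Filter.frequently_atTop]
  intro N
  obtain ⟨m, hm, hm1⟩ := Filter.frequently_atTop.1 h2 N
  refine ⟨n + m, by omega, ?_⟩
  have h3 := hT_concat P hF (n : ℝ) (m : ℝ) (Nat.cast_nonneg n) (Nat.cast_nonneg m) x y z
  have h4 : (((n + m : ℕ)) : ℝ) = (n : ℝ) + m := Nat.cast_add n m
  rw [h4]
  refine (h3.trans (add_le_add le_rfl hm1.le)).trans (le_of_eq ?_)
  rw [add_assoc]

theorem lat_zero' (L : ℝ) : lat L (0 : Jx → ℤ) = 0 := by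
  ext i
  simp [lat]

/-- distance of two exact states -/
theorem pt_dist (l l' : List Cell) (R : Fin 12 → ℝ) (c : ℝ)
    (h : ∀ i tr, |rl Ty.E 1 0 l i tr - rl Ty.E 1 0 l' i tr| ≤ c) :
    ‖pt l R 0 - pt l' R 0‖ ^ 2 ≤ 15 * c ^ 2 := by
  rw [EuclideanSpace.norm_eq, Real.sq_sqrt (Finset.sum_nonneg fun i _ => by positivity)]
  rw [Fintype.sum_sum_type, Fintype.sum_sum_type, Fintype.sum_prod_type]
  have h1 : ∀ (i : Fin 3) (tr : Fin 5), ‖(pt l R 0 - pt l' R 0) (Sum.inl (Sum.inl (i, tr)))‖ ^ 2 ≤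
      c ^ 2 := by
    intro i tr
    have e : (pt l R 0 - pt l' R 0) (Sum.inl (Sum.inl (i, tr))) =
        rl Ty.E 1 0 l i tr - rl Ty.E 1 0 l' i tr := rfl
    rw [e, Real.norm_eq_abs]
    exact pow_le_pow_left₀ (abs_nonneg _) (h i tr) 2
  have h2 : ∀ k : Fin 12, ‖(pt l R 0 - pt l' R 0) (Sum.inl (Sum.inr k))‖ ^ 2 = 0 := by
    intro k
    have e : (pt l R 0 - pt l' R 0) (Sum.inl (Sum.inr k)) = R k - R k := rfl
    rw [e]; simp
  have h3 : ∀ k : Fin 2, ‖(pt l R 0 - pt l' R 0) (Sum.inr k)‖ ^ 2 = 0 := by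
    intro k
    have e : (pt l R 0 - pt l' R 0) (Sum.inr k) = (![0, 0] : Fin 2 → ℝ) k - (![0, 0] : Fin 2 → ℝ) k :=
      rfl
    rw [e]; simp
  rw [Finset.sum_eq_zero (fun k _ => h2 k), Finset.sum_eq_zero (fun k _ => h3 k), add_zero, add_zero]
  calc ∑ i : Fin 3, ∑ tr : Fin 5, ‖(pt l R 0 - pt l' R 0) (Sum.inl (Sum.inl (i, tr)))‖ ^ 2
      ≤ ∑ _i : Fin 3, ∑ _tr : Fin 5, c ^ 2 :=
        Finset.sum_le_sum fun i _ => Finset.sum_le_sum fun tr _ => h1 i tr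
    _ = 15 * c ^ 2 := by simp; ring

theorem key (cc : Clamp (5/4)) (cx : Clamp (mm + 1/2)) (rh : Rho) {F : EE → EE}
    {φ : ℝ → EE → EE} (h : Realz 97 (YY cc cx rh) LL F φ) :
    ∃ C : ℝ, 0 ≤ C ∧ ∀ (D : ℕ) (l l' : List Cell), Good l → Good l' →
      |val l - val l'| < 1 / MM ^ (6 * D) → ∀ R R' : Fin 12 → ℝ, (∀ k, |R k| ≤ 1/32) →
      (∀ R'' : Fin 12 → ℝ, (∀ k, |R'' k| ≤ 1/32) → bN LL F (pt l' R'' 0) (pt l' R' 0) = 0) →
      bN LL F (pt l R 0) (pt l' R' 0) ≤ ENNReal.ofReal (C * (1 / lam) ^ D) := by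
  obtain ⟨K, B, hK0, hB0, hK, -, -, -, -⟩ := gen_flow (P := LL) Fact.out h.smooth h.per h.flow
  have hFc : Continuous F := h.smooth.continuous
  have hlam1 : (1 : ℝ) ≤ lam := by unfold lam; norm_num
  refine ⟨(1 + 1 / 1) * (1 + K) ^ 2 * (30 * ((mm : ℝ) + 1) ^ 2), by positivity, ?_⟩
  intro D l l' hl hl' hval R R' hR hrec
  obtain ⟨l1, n, hn, hD1, hv1, hb1, ht1, ht2⟩ := good_step (6 * D) l l' hl hl' hval
  obtain ⟨hD2, hv2, G, hG, -⟩ := run_zero cc cx rh h n l1 hD1 hv1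
  obtain ⟨hG1, m, hG2⟩ := hG R hR
  obtain ⟨gD, -, gb⟩ := good_facts l hl
  obtain ⟨gD', -, gb'⟩ := good_facts l' hl'
  -- the two jumps
  have e1 : ‖pt l1 R 0 - pt l R 0‖ ^ 2 ≤ 15 * (((mm : ℝ) + 1) / lam ^ D) ^ 2 :=
    pt_dist l1 l R _ (fun i tr => rl_close2 D l1 l hD1 gD hb1 ht1 i tr)
  have e2 : ‖pt (run (6 * n) (fun _ => false) Ty.E l1) (G R) 0 - pt l' (G R) 0‖ ^ 2 ≤
      15 * (((mm : ℝ) + 1) / lam ^ D) ^ 2 :=
    pt_dist _ _ _ _ (fun i tr => by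
      rw [abs_sub_comm]
      exact rl_close2 D l' _ gD' hD2 (gb' _) ht2.symm i tr)
  -- the exact piece
  have hLLn : ((n * 2 ^ 40 : ℕ) : ℝ) = n * LL := by
    unfold LL; push_cast; ring
  have hT0 : hT LL F ((n * 2 ^ 40 : ℕ) : ℝ) (pt l1 R 0)
      (pt (run (6 * n) (fun _ => false) Ty.E l1) (G R) 0) = 0 := by
    have h1 := hT_flow LL hFc h.flow ((n * 2 ^ 40 : ℕ) : ℝ) (Nat.cast_nonneg _) (pt l1 R 0)
    rw [hLLn, hG2] at h1
    have h2 := hT_lat LL h.per (n * LL) (by rw [← hLLn]; exact Nat.cast_nonneg _) (pt l1 R 0)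
      (pt (run (6 * n) (fun _ => false) Ty.E l1) (G R) 0) 0 m
    rw [lat_zero', add_zero, h1] at h2
    rw [hLLn, ← h2]
  have h2n : (2 : ℝ) ≤ ((n * 2 ^ 40 : ℕ) : ℝ) := by
    have : 2 ≤ n * 2 ^ 40 := by nlinarith
    exact_mod_cast this
  have hmv := hT_move LL hFc K hK0 hK ((n * 2 ^ 40 : ℕ) : ℝ) h2n (pt l1 R 0)
    (pt (run (6 * n) (fun _ => false) Ty.E l1) (G R) 0) (pt l R 0) (pt l' (G R) 0) 1 one_pos
  rw [hT0, mul_zero, zero_add] at hmv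
  have hpc := bN_piece h.per (n * 2 ^ 40) (pt l R 0) (pt l' (G R) 0) (pt l' R' 0)
  rw [hrec (G R) hG1, add_zero] at hpc
  refine (hpc.trans hmv).trans (ENNReal.ofReal_le_ofReal ?_)
  have hpow : (((mm : ℝ) + 1) / lam ^ D) ^ 2 ≤ ((mm : ℝ) + 1) ^ 2 * (1 / lam) ^ D := by
    have h3 : (1 / lam : ℝ) ^ D ≤ 1 := by
      apply pow_le_one₀ (by positivity)
      rw [div_le_one (by positivity)]; exact hlam1
    have h4 : 0 ≤ (1 / lam : ℝ) ^ D := by positivity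
    calc (((mm : ℝ) + 1) / lam ^ D) ^ 2 = ((mm : ℝ) + 1) ^ 2 * ((1 / lam) ^ D * (1 / lam) ^ D) := by
          rw [one_div, inv_pow]; field_simp
      _ ≤ ((mm : ℝ) + 1) ^ 2 * ((1 / lam) ^ D * 1) := by gcongr
      _ = _ := by ring
  calc (1 + 1 / 1) * (1 + K) ^ 2 * (‖pt l1 R 0 - pt l R 0‖ ^ 2 +
        ‖pt (run (6 * n) (fun _ => false) Ty.E l1) (G R) 0 - pt l' (G R) 0‖ ^ 2)
      ≤ (1 + 1 / 1) * (1 + K) ^ 2 * (15 * (((mm : ℝ) + 1) / lam ^ D) ^ 2 +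
        15 * (((mm : ℝ) + 1) / lam ^ D) ^ 2) := by gcongr
    _ = (1 + 1 / 1) * (1 + K) ^ 2 * (30 * (((mm : ℝ) + 1) / lam ^ D) ^ 2) := by ring
    _ ≤ (1 + 1 / 1) * (1 + K) ^ 2 * (30 * (((mm : ℝ) + 1) ^ 2 * (1 / lam) ^ D)) := by gcongr
    _ = _ := by ring

end Pool.Agent.Y203.QC
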