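import Mathlib
import Pool.Agent.Y839.QC.XTick
import Pool.Agent.Y839.QC.ZSec
import Pool.Agent.Y350.QC.XRange
import Pool.Agent.Y220.QC.RMain
import Pool.Agent.Y220.QC.Q17
import Pool.Agent.Y26.QC.Q18
import Pool.Agent.Helper961.Aub.ZFlow

/-!
MP_7d4c8f_an, discrete lower bound between exact states: lower_disc2
-/

set_option autoImplicit false

open Set Filter Topology MeasureTheory
open scoped ContDiff

namespace Pool.Agent.Y203.QC

open Pool.Agent.Aub (mm lam Stk dt stp Sc S1 S2 Qx gT gt cT ct hC hX Dg Ty stg rho mu posn peel cE cF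
  DD rb subTy subP subC sub broken Clamp Ix Zs stk reg mkz Wt f0 f1 f4 f6 g0 g1 M0 M4 M6 N1 tyj pj
  Cell sT Dle vb tyn Jx EE mkp pz py pth LL psi Rho Realz Th yo PerField IsFlow action hT lat IsCurve)

theorem P19_repr (x : EE) : x = mkp (pz x) (py x) (pth x) := by
  ext i
  rcases i with i | i
  · simp [mkp, pz]
  · fin_cases i <;> simp [mkp, py, pth]

theorem P19_pz (z : Zs) (y θ : ℝ) : pz (mkp z y θ) = z := by
  ext i; simp [mkp, pz]

theorem P19_coord (x : EE) (i : Jx) : |x i| ≤ ‖x‖ := by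
  have := PiLp.norm_apply_le x i
  simpa [Real.norm_eq_abs] using this

theorem P19_tyj_succ (n : ℕ) : tyj (n + 1) = (tyj n).other := by
  unfold tyj
  rcases Nat.even_or_odd n with h | h
  · have h1 : n % 2 = 0 := Nat.even_iff.mp h
    have h2 : (n + 1) % 2 = 1 := by omega
    simp [h1, h2, Ty.other]
  · have h1 : n % 2 = 1 := Nat.odd_iff.mp h
    have h2 : (n + 1) % 2 = 0 := by omega
    simp [h1, h2, Ty.other]

theorem P19_pj_succ (n : ℕ) : pj (n + 1) = pj n + 1 := by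
  unfold pj
  apply Fin.ext
  simp [Fin.ofNat, Fin.val_add]

theorem P19_Md (ty : Ty) (p : Fin 3) (ν : ℝ) (hν : 0 ≤ ν) (z z' : Stk)
    (h : ∀ i tr, |z' i tr - z i tr| ≤ ν) : Md ty p ν 0 Fl.n z z' := by
  refine ⟨hν, fun i => h i 0, fun i => Or.inl (h i 1), fun h' => absurd rfl h', fun _ _ => 0,
    by simp, by simp [Fl.cre], ?_⟩
  intro i k
  rw [ite_self]
  refine ⟨fun _ => Or.inr ?_, fun h' => by simp at h', fun h' => by simp at h'⟩
  have := le_max_left (z i (dt k)) 0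
  linarith [this, (abs_le.mp (h i (dt k))).2]

theorem P19_core (cc : Clamp (5/4)) (cx : Clamp (mm + 1/2)) (rh : Rho) {F : EE → EE}
    {φ : ℝ → EE → EE} (h : Realz 97 (YY cc cx rh) LL F φ) (l l' : List Cell) (hD : Dle l)
    (hD' : Dle l') (R R' : Fin 12 → ℝ)
    (hRR : ∀ k, |R k| ≤ 1/32) (J : ℕ)
    (hJ : 1 ≤ J) (P : ℕ → EE) (ν : ℕ → ℝ) (h0 : P 0 = pt l R 0)
    (hth : ∀ n ≤ J, pth (P n) = Th n)
    (hν : ∀ n < J, ‖P (n + 1) - φ (Th (n + 1) - Th n) (P n)‖ ≤ ν n ∧ ν n ≤ 1/32)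
    (k : Jx → ℤ) (hJ1 : P J = pt l' R' 0 + lat LL k) (N : ℕ) :
    UU N true 1 Ty.E 0 (rl Ty.E 1 0 l') ≤ UU N false 1 Ty.E 0 (rl Ty.E 1 0 l) +
      3072 * ∑ n ∈ Finset.range J, ν n ^ 2 + (J + 1) / MM ^ N := by
  set Z : ℕ → Zs := fun n => pz (P n) with hZ
  set T : ℕ → Zs := fun n => tick cc cx (tyj n) (pj n) (rh.ρ (py (P n))) (Z n) with hT
  have hZ0 : Z 0 = mkz (rl Ty.E 1 0 l) R := by
    simp only [hZ]; rw [h0]; unfold pt; rw [P19_pz]
  have hrl : ∀ l : List Cell, Dle l → ∀ i tr, |rl Ty.E 1 0 l i tr| ≤ 2 ^ 13 := by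
    intro l hl i tr
    obtain ⟨h1, h2, -⟩ := rl_range l hl Ty.E 1 0 i tr
    rw [abs_of_nonneg h1]
    refine h2.trans ?_
    norm_num [mm]
  have hst : ∀ i tr, |stk (Z 0) i tr| ≤ 2 ^ 13 := by
    intro i tr
    rw [hZ0]
    exact hrl l hD i tr
  have hrg : ∀ k, |reg (Z 0) k| ≤ 1/32 := by
    intro k
    rw [hZ0]
    exact hRR k
  -- one step
  have hstep : ∀ n < J, (∀ i tr, |stk (Z n) i tr| ≤ 2 ^ 32) → (∀ k, |reg (Z n) k| ≤ 1/16) →
      ∀ i, |Z (n + 1) i - T n i| ≤ ν n := by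
    intro n hn hS hR i
    obtain ⟨y', hy'⟩ := section_flow cc cx rh h n (Z n) (py (P n)) hS hR
    have hP : P n = mkp (Z n) (py (P n)) (Th n) := by
      have := P19_repr (P n)
      rw [hth n hn.le] at this
      exact this
    have h1 := (hν n hn).1
    rw [← hP] at hy'
    rw [hy'] at h1
    have h2 := P19_coord (P (n + 1) - mkp (tick cc cx (tyj n) (pj n) (rh.ρ (py (P n))) (Z n)) y'
      (Th (n + 1))) (Sum.inl i)
    have h3 : (P (n + 1) - mkp (tick cc cx (tyj n) (pj n) (rh.ρ (py (P n))) (Z n)) y'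
      (Th (n + 1))) (Sum.inl i) = Z (n + 1) i - T n i := by
      simp [hZ, hT, mkp, pz]
    rw [h3] at h2
    exact h2.trans h1
  have hνpos : ∀ n < J, 0 ≤ ν n := fun n hn => (norm_nonneg _).trans (hν n hn).1
  have hr0 : ∀ n, 0 ≤ rh.ρ (py (P n)) := fun n => rh.nonneg _
  have hr1 : ∀ n, rh.ρ (py (P n)) ≤ 1 := fun n => rh.le_one _
  -- invariants
  have hinv : ∀ n ≤ J, (∀ k, |reg (Z n) k| ≤ 1/16) ∧
      (∀ i tr, i ≠ pj n - 1 → |stk (Z n) i tr| ≤ 2 ^ 31 + 1/32) ∧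
      (∀ i tr, |stk (Z n) i tr| ≤ 2 ^ 31 + 2/32) := by
    intro n
    induction n with
    | zero =>
      intro _
      refine ⟨fun k => (hrg k).trans (by norm_num), fun i tr _ => (hst i tr).trans (by norm_num),
        fun i tr => (hst i tr).trans (by norm_num)⟩
    | succ n ih =>
      intro hn
      obtain ⟨hR, hS1, hS2⟩ := ih (by omega)
      have hS : ∀ i tr, |stk (Z n) i tr| ≤ 2 ^ 32 := fun i tr => (hS2 i tr).trans (by norm_num)
      have hs := hstep n (by omega) hS hR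
      have hnn := (hν n (by omega)).2
      obtain ⟨htr, hti, htg⟩ := tick_rel cc cx (tyj n) (pj n) (rh.ρ (py (P n))) (hr0 n) (hr1 n)
        (Z n) hS hR
      have hpp : pj (n + 1) - 1 = pj n := by rw [P19_pj_succ]; simp
      have key : ∀ i tr, i ≠ pj n → |stk (Z (n + 1)) i tr| ≤ 2 ^ 31 + 1/32 := by
        intro i tr hi
        have h1 := hti i tr hi
        have h2 := hs (Sum.inl (i, tr))
        have h3 : |stk (Z (n + 1)) i tr - stk (T n) i tr| ≤ ν n := h2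
        have h4 := abs_sub_abs_le_abs_sub (stk (Z (n + 1)) i tr) (stk (T n) i tr)
        have h5 : |stk (T n) i tr| ≤ 2 ^ 31 := h1
        linarith
      refine ⟨?_, ?_, ?_⟩
      · intro k
        have h1 := htg k
        have h3 : |reg (Z (n + 1)) k - reg (T n) k| ≤ ν n := hs (Sum.inr k)
        have h4 := abs_sub_abs_le_abs_sub (reg (Z (n + 1)) k) (reg (T n) k)
        have h5 : |reg (T n) k| ≤ 1/32 := h1
        linarith
      · intro i tr hi
        rw [hpp] at hi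
        exact key i tr hi
      · intro i tr
        by_cases hi : i = pj n
        · have h1 := htr.1 tr
          have hne : pj n ≠ pj n - 1 := by
            generalize pj n = q
            revert q; decide
          have h2 := hS1 (pj n) tr hne
          have h3 : |stk (Z (n + 1)) (pj n) tr - stk (T n) (pj n) tr| ≤ ν n :=
            hs (Sum.inl (pj n, tr))
          have h4 := abs_sub_abs_le_abs_sub (stk (Z (n + 1)) (pj n) tr) (stk (T n) (pj n) tr)
          have h5 : stk (T n) (pj n) tr = stk (Z n) (pj n) tr := h1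
          rw [h5] at h4 h3
          rw [hi]
          linarith
        · have := key i tr hi
          linarith
  have hS : ∀ n ≤ J, ∀ i tr, |stk (Z n) i tr| ≤ 2 ^ 32 :=
    fun n hn i tr => ((hinv n hn).2.2 i tr).trans (by norm_num)
  have hR : ∀ n ≤ J, ∀ k, |reg (Z n) k| ≤ 1/16 := fun n hn => (hinv n hn).1
  have hnoise : ∀ n < J, ∀ i tr, |stk (Z (n + 1)) i tr - stk (T n) i tr| ≤ ν n :=
    fun n hn i tr => hstep n hn (hS n hn.le) (hR n hn.le) (Sum.inl (i, tr))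
  -- the generalised trajectory
  have hTr : ∀ n, n ≤ J → ∃ e ν' : ℝ, Tr 1 Ty.E 0 (rl Ty.E 1 0 l) (tyj n) (pj n)
      (stk (Z n)) e ν' 0 0 n ∧ e + ν' ^ 2 = ∑ i ∈ Finset.range n, ν i ^ 2 := by
    intro n
    induction n with
    | zero =>
      intro _
      refine ⟨0, 0, ?_, by simp⟩
      have hb := Tr.base (δ := 1) (ty0 := Ty.E) (p0 := 0) (z0 := rl Ty.E 1 0 l) 0 0 Fl.n
        (stk (Z 0)) (P19_Md _ _ _ le_rfl _ _ (fun i tr => by
          rw [hZ0]
          show |rl Ty.E 1 0 l i tr - rl Ty.E 1 0 l i tr| ≤ 0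
          simp))
      have e1 : tyj 0 = Ty.E := by simp [tyj]
      have e2 : pj 0 = 0 := by rfl
      rw [e1, e2]
      simpa [Fl.deb] using hb
    | succ n ih =>
      intro h1
      obtain ⟨e, ν', h2, hsum⟩ := ih (by omega)
      have htr := (tick_rel cc cx (tyj n) (pj n) (rh.ρ (py (P n)))
        (hr0 _) (hr1 _) (Z n) (hS _ (by omega)) (hR _ (by omega))).1
      have h3 := Tr.step _ _ _ _ _ _ _ _ h2 (stk (T n)) (stk (Z (n + 1))) htr
        (ν n) 0 Fl.n (P19_Md _ _ _ (hνpos n (by omega)) _ _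
          (hnoise n (by omega)))
      refine ⟨e + ν' ^ 2, ν n, ?_, ?_⟩
      · rw [P19_tyj_succ n, P19_pj_succ n]
        simpa [Fl.deb] using h3
      · rw [Finset.sum_range_succ, hsum]
  -- the end
  have hthJ : Th J = LL * (k (Sum.inr 1) : ℝ) := by
    rw [← hth J le_rfl, hJ1]
    simp [pt, pth, mkp, lat]
  have hJ6 : J % 6 = 0 := by
    unfold Th LL at hthJ
    have h1 : (((J / 6 : ℕ) : ℤ) : ℝ) * 2 ^ 40 + 16 * (((J % 6 : ℕ) : ℤ) : ℝ)
        = 2 ^ 40 * (k (Sum.inr 1) : ℝ) := by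
      push_cast at hthJ ⊢
      exact hthJ
    have h2 : ((J / 6 : ℕ) : ℤ) * 2 ^ 40 + 16 * ((J % 6 : ℕ) : ℤ) = 2 ^ 40 * k (Sum.inr 1) := by
      exact_mod_cast h1
    have h3 : J % 6 < 6 := Nat.mod_lt _ (by norm_num)
    omega
  have htyJ : tyj J = Ty.E := by
    unfold tyj
    rw [if_pos (by omega)]
  have hpJ : pj J = 0 := by
    unfold pj
    apply Fin.ext
    simp [Fin.ofNat]
    omega
  have hzJ : stk (Z J) = rl Ty.E 1 0 l' := by
    funext i tr
    have h1 : stk (Z J) i tr = rl Ty.E 1 0 l' i tr +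
        LL * (k (Sum.inl (Sum.inl (i, tr))) : ℝ) := by
      simp only [hZ]
      rw [hJ1]
      simp [stk, pz, pt, mkz, mkp, lat]
    have h2 := abs_le.mp (hS J le_rfl i tr)
    have h3 := abs_le.mp (hrl l' hD' i tr)
    have h4 : k (Sum.inl (Sum.inl (i, tr))) = 0 := by
      rw [h1] at h2
      unfold LL at h2
      have h5 : (k (Sum.inl (Sum.inl (i, tr))) : ℝ) < 1 := by nlinarith [h2.2, h3.1]
      have h6 : (-1 : ℝ) < (k (Sum.inl (Sum.inl (i, tr))) : ℝ) := by nlinarith [h2.1, h3.2]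
      have h7 : k (Sum.inl (Sum.inl (i, tr))) < 1 := by exact_mod_cast h5
      have h8 : -1 < k (Sum.inl (Sum.inl (i, tr))) := by exact_mod_cast h6
      omega
    rw [h1, h4]
    simp
  obtain ⟨e, ν', h2, hsum⟩ := hTr J le_rfl
  have h1 := main_ineq N 1 (by decide) _ _ _ _ _ _ _ _ _ _ _ h2
  rw [htyJ, hpJ, hzJ, hsum] at h1
  push_cast at h1
  linarith

theorem lower_disc2 (cc : Clamp (5/4)) (cx : Clamp (mm + 1/2)) (rh : Rho) {F : EE → EE}
    {φ : ℝ → EE → EE} (h : Realz 97 (YY cc cx rh) LL F φ) (l l' : List Cell) (hD : Dle l)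
    (hD' : Dle l') (hv : Val Ty.E l) (hv' : Val Ty.E l') (R R' : Fin 12 → ℝ)
    (hR : ∀ k, |R k| ≤ 1/32) (J : ℕ)
    (hJ : 1 ≤ J) (P : ℕ → EE) (ν : ℕ → ℝ) (h0 : P 0 = pt l R 0)
    (hth : ∀ n ≤ J, pth (P n) = Th n)
    (hν : ∀ n < J, ‖P (n + 1) - φ (Th (n + 1) - Th n) (P n)‖ ≤ ν n ∧
      ν n ≤ 1/32)
    (k : Jx → ℤ) (hJ1 : P J = pt l' R' 0 + lat LL k) (N : ℕ) :
    vN N l' ≤ vN N l + 3072 * ∑ n ∈ Finset.range J, ν n ^ 2 + (J + 1) / MM ^ N := by
  have h1 := P19_core cc cx rh h l l' hD hD' R R' hR J hJ P ν h0 hth hν k hJ1 N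
  rw [UU_exact N true 1 (by decide) Ty.E 0 l' hD' hv',
    UU_exact N false 1 (by decide) Ty.E 0 l hD hv] at h1
  exact h1

end Pool.Agent.Y203.QC
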