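import Mathlib
import Pool.Agent.Y203.QC.Q19
import Pool.Agent.Helper961.Aub.ZFlow
import Pool.Agent.Helper961.Aub.ZSamp
import Pool.Agent.Helper961.Aub.ZLoop

/-!
MP_7d4c8f_an, lower bound for the action between exact states: lower2
-/

set_option autoImplicit false

open Set Filter Topology MeasureTheory
open scoped ContDiff

namespace Pool.Agent.Y203.QC

open Pool.Agent.Aub (mm lam Stk dt stp Sc S1 S2 Qx gT gt cT ct hC hX Dg Ty stg rho mu posn peel cE cF
  DD rb subTy subP subC sub broken Clamp Ix Zs stk reg mkz Wt f0 f1 f4 f6 g0 g1 M0 M4 M6 N1 tyj pj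
  Cell sT Dle vb tyn Jx EE mkp pz py pth LL psi Rho Realz Th yo PerField IsFlow action hT lat IsCurve)

theorem P20_LL : LL = 1099511627776 := by norm_num [Pool.Agent.Aub.LL]

theorem P20_Th (n : ℕ) : 1 ≤ Pool.Agent.Aub.Th (n + 1) - Pool.Agent.Aub.Th n ∧
    Pool.Agent.Aub.Th (n + 1) - Pool.Agent.Aub.Th n ≤ LL := by
  unfold Pool.Agent.Aub.Th
  have h6 : n % 6 < 6 := Nat.mod_lt _ (by norm_num)
  rcases Nat.lt_or_ge (n % 6) 5 with h | h
  · have h1 : (n + 1) / 6 = n / 6 := by omega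
    have h2 : (n + 1) % 6 = n % 6 + 1 := by omega
    rw [h1, h2, Nat.cast_add, Nat.cast_one, P20_LL]
    constructor <;> linarith
  · have h0 : n % 6 = 5 := by omega
    have h1 : (n + 1) / 6 = n / 6 + 1 := by omega
    have h2 : (n + 1) % 6 = 0 := by omega
    rw [h0, h1, h2, Nat.cast_add, Nat.cast_one, P20_LL]
    norm_num
    constructor <;> linarith

theorem P20_Th6 (m : ℕ) : Pool.Agent.Aub.Th (6 * m) = LL * m := by
  unfold Pool.Agent.Aub.Th
  have h1 : 6 * m / 6 = m := by omega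
  have h2 : 6 * m % 6 = 0 := by omega
  rw [h1, h2]
  push_cast
  ring

theorem lower2 (cc : Clamp (5/4)) (cx : Clamp (mm + 1/2)) (rh : Rho) {F : EE → EE}
    {φ : ℝ → EE → EE} (h : Realz 97 (YY cc cx rh) LL F φ) :
    ∃ C : ℝ, 0 < C ∧ ∀ (l l' : List Cell), Dle l → Dle l' → Val Ty.E l → Val Ty.E l' →
      ∀ (R R' : Fin 12 → ℝ), (∀ k, |R k| ≤ 1/32) → ∀ (T : ℝ), 1 ≤ T →
      ENNReal.ofReal (val l' - val l) ≤ ENNReal.ofReal C * hT LL F T (pt l R 0) (pt l' R' 0) := by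
  have hLL : (0:ℝ) < LL := by rw [P20_LL]; norm_num
  obtain ⟨K, B, hK0, hB0, hK, hB, -, -, -⟩ := Pool.Agent.Aub.flow_facts hLL h.smooth h.per h.flow
  obtain ⟨C1, A0, hC1, hA0, hsamp⟩ := Pool.Agent.Aub.sampling F φ K B hK0 hB0 hK hB h.theta h.flow
    Pool.Agent.Aub.Th LL P20_Th
  obtain ⟨c, hc0, hc1, hc2, hc3⟩ : ∃ c : ℝ, 0 < c ∧ c ≤ A0 ∧ c ≤ 1 / 8 ∧ C1 * c ≤ 1 / 1024 := by
    refine ⟨min A0 (min (1 / 8) (1 / (1024 * C1))), ?_,
      min_le_left _ _, (min_le_right _ _).trans (min_le_left _ _), ?_⟩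
    · exact lt_min hA0 (lt_min (by norm_num) (by positivity))
    · calc C1 * min A0 (min (1 / 8) (1 / (1024 * C1)))
          ≤ C1 * (1 / (1024 * C1)) := mul_le_mul_of_nonneg_left
            ((min_le_right _ _).trans (min_le_right _ _)) hC1.le
        _ = 1 / 1024 := by field_simp
  have hCpos : 0 < 3072 * C1 + 2 / c := by positivity
  refine ⟨3072 * C1 + 2 / c, hCpos, ?_⟩
  intro l l' hD hD' hv hv' R R' hR T hT1
  set C : ℝ := 3072 * C1 + 2 / c with hCdef
  set d : ℝ := val l' - val l with hd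
  have hd2 : d ≤ 2 := by
    have h1 := (val_range l' hD').2
    have h2 := (val_range l hD).1
    rw [hd]; linarith
  have hCc : 2 / C ≤ c := by
    rw [div_le_iff₀ hCpos]
    have : c * C = 3072 * C1 * c + 2 := by
      rw [hCdef]; field_simp
    rw [this]
    have : 0 < 3072 * C1 * c := by positivity
    linarith
  suffices hmain : ENNReal.ofReal (d / C) ≤ hT LL F T (pt l R 0) (pt l' R' 0) by
    calc ENNReal.ofReal d = ENNReal.ofReal C * ENNReal.ofReal (d / C) := by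
          rw [← ENNReal.ofReal_mul hCpos.le]
          congr 1
          field_simp
      _ ≤ _ := mul_le_mul_right hmain _
  unfold Pool.Agent.Aub.hT
  refine le_iInf fun γ => le_iInf fun v => le_iInf fun hcur => le_iInf fun hγ0 => le_iInf fun hγT => ?_
  obtain ⟨k, hγT⟩ := hγT
  by_contra hcon
  push Not at hcon
  have hfin : action F γ v T ≠ ⊤ := ne_top_of_lt hcon
  obtain ⟨A, hAdef⟩ : ∃ A, A = (action F γ v T).toReal := ⟨_, rfl⟩
  have hA : action F γ v T = ENNReal.ofReal A := by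
    rw [hAdef, ENNReal.ofReal_toReal hfin]
  have hAn : 0 ≤ A := by rw [hAdef]; exact ENNReal.toReal_nonneg
  have hAd : A < d / C := by
    rw [hA] at hcon
    exact (ENNReal.ofReal_lt_ofReal_iff_of_nonneg hAn).1 hcon
  have hAc : A < c := by
    have : d / C ≤ 2 / C := div_le_div_of_nonneg_right hd2 hCpos.le
    linarith
  have hx1 : (pt l R 0) (Sum.inr 1) = 0 := rfl
  have hx2 : (pt l' R' 0) (Sum.inr 1) = 0 := rfl
  have hpos := Pool.Agent.Aub.loop_theta F h.theta T A hT1 γ v hcur h.smooth.continuous hA.le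
    (by linarith)
  have hγT1 : γ T (Sum.inr 1) = LL * (k (Sum.inr 1) : ℝ) := by
    rw [hγT]
    show (pt l' R' 0) (Sum.inr 1) + LL * (k (Sum.inr 1) : ℝ) = _
    rw [hx2, zero_add]
  rw [hγ0, hx1, hγT1, sub_zero] at hpos
  have hkpos : (0:ℝ) < (k (Sum.inr 1) : ℝ) := by
    by_contra hneg
    push Not at hneg
    have := mul_nonpos_of_nonneg_of_nonpos hLL.le hneg
    linarith
  have hkpos' : 0 < k (Sum.inr 1) := by exact_mod_cast hkpos
  obtain ⟨m, hm⟩ : ∃ m : ℕ, k (Sum.inr 1) = (m : ℤ) := ⟨(k (Sum.inr 1)).toNat, by omega⟩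
  have hm1 : 1 ≤ m := by omega
  have hγT2 : γ T (Sum.inr 1) = Pool.Agent.Aub.Th (6 * m) := by
    rw [hγT1, hm, P20_Th6]
    norm_cast
  obtain ⟨P, a, hP0, hPJ, hPth, hPa, ha0, hasum⟩ := hsamp T γ v (6 * m) A (by linarith) (by omega)
    hcur (by
      rw [hγ0, hx1]
      have := P20_Th6 0
      simpa using this.symm) hγT2 hA.le hAn (by linarith)
  have haA : ∀ n < 6 * m, a n ≤ A := fun n hn =>
    (Finset.single_le_sum (fun i _ => ha0 i) (Finset.mem_range.2 hn)).trans hasum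
  have hlow : ∀ N, vN N l' ≤ vN N l
      + 3072 * ∑ n ∈ Finset.range (6 * m), (Real.sqrt (C1 * a n)) ^ 2
      + (((6 * m : ℕ) : ℝ) + 1) / MM ^ N := fun N =>
    lower_disc2 cc cx rh h l l' hD hD' hv hv' R R' hR (6 * m) (by omega) P
      (fun n => Real.sqrt (C1 * a n))
      (hP0.trans hγ0) (fun n hn => hPth n hn) (fun n hn => by
        refine ⟨Real.le_sqrt_of_sq_le (hPa n hn), ?_⟩
        rw [Real.sqrt_le_left (by norm_num)]
        have h1 : C1 * a n ≤ C1 * c := mul_le_mul_of_nonneg_left ((haA n hn).trans hAc.le) hC1.le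
        norm_num
        linarith) k (hPJ.trans hγT) N
  have hsq : ∑ n ∈ Finset.range (6 * m), (Real.sqrt (C1 * a n)) ^ 2 ≤ C1 * A := by
    have : ∀ n ∈ Finset.range (6 * m), (Real.sqrt (C1 * a n)) ^ 2 = C1 * a n := fun n _ =>
      Real.sq_sqrt (mul_nonneg hC1.le (ha0 n))
    rw [Finset.sum_congr rfl this, ← Finset.mul_sum]
    exact mul_le_mul_of_nonneg_left hasum hC1.le
  have hMM : (1:ℝ) < MM := by
    unfold MM
    norm_num
  have hbd : ∀ N : ℕ, val l' - val l - 3072 * (C1 * A) ≤ ((6 * m : ℕ) + 5 : ℝ) / MM ^ N := by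
    intro N
    have h1 := abs_le.1 (vN_val N l hD)
    have h2 := abs_le.1 (vN_val N l' hD')
    have h3 := hlow N
    have h4 : ((6 * m : ℕ) + 5 : ℝ) / MM ^ N
        = (((6 * m : ℕ) : ℝ) + 1) / MM ^ N + 2 / MM ^ N + 2 / MM ^ N := by ring
    rw [h4]
    linarith [h1.1, h1.2, h2.1, h2.2]
  have hlim : Tendsto (fun N : ℕ => ((6 * m : ℕ) + 5 : ℝ) / MM ^ N) atTop (𝓝 0) :=
    (tendsto_pow_atTop_atTop_of_one_lt hMM).const_div_atTop _
  have hfinal : val l' - val l - 3072 * (C1 * A) ≤ 0 := ge_of_tendsto' hlim hbd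
  have h5 : A * C < d := (lt_div_iff₀ hCpos).1 hAd
  have h6 : A * C = 3072 * (C1 * A) + A * (2 / c) := by rw [hCdef]; ring
  have h7 : 0 ≤ A * (2 / c) := by positivity
  rw [h6] at h5
  linarith

end Pool.Agent.Y203.QC
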