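import Mathlib
import Pool.Agent.Y26.QC.Q18
import Pool.Agent.Y26.QC.SStep
import Pool.Agent.Y220.QC.XClose
import Pool.Agent.Y203.QC.ZRun
import Pool.Agent.Helper981.QA.P08
import Pool.Agent.Helper981.QA.P09
import Pool.Agent.Helper981.QA.P10
import Pool.Agent.Helper981.QA.P13

/-!
MP_7d4c8f_an, recurrent exact states: recur, with independence of the registers
-/

set_option autoImplicit false

open Set Filter Topology MeasureTheory
open scoped ContDiff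

namespace Pool.Agent.Y203.QC

open Pool.Agent.Aub (mm lam Stk dt stp Sc S1 S2 Qx gT gt cT ct hC hX Dg Ty stg rho mu posn peel cE cF
  DD rb subTy subP subC sub broken Clamp Ix Zs stk reg mkz Wt f0 f1 f4 f6 g0 g1 M0 M4 M6 N1 tyj pj
  Cell sT Dle vb tyn Jx EE mkp pz py pth LL psi Rho Realz Th yo PerField IsFlow action hT lat IsCurve)
open Pool.Agent.QA (bN hT_move hT_concat hT_flow hT_lat gen_flow)

theorem Q23_lat_zero (L : ℝ) : lat L (0 : Jx → ℤ) = 0 := by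
  ext i
  simp [lat]

theorem Q23_tendsto (S : ℕ → Stk) (S0 : Stk) (R : ℕ → Fin 12 → ℝ)
    (R0 : Fin 12 → ℝ) (hS : ∀ i tr, Tendsto (fun j => S j i tr) atTop (𝓝 (S0 i tr)))
    (hR : Tendsto R atTop (𝓝 R0)) :
    Tendsto (fun j => mkp (mkz (S j) (R j)) 0 0) atTop (𝓝 (mkp (mkz S0 R0) 0 0)) := by
  unfold Pool.Agent.Aub.mkp
  refine ((PiLp.continuous_toLp 2 _).tendsto _).comp ?_
  rw [tendsto_pi_nhds]
  rintro ((⟨i, tr⟩ | k) | a)
  · exact hS _ _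
  · exact (tendsto_pi_nhds.1 hR) _
  · exact tendsto_const_nhds

/-- the barrier vanishes from a point to a point of its omega limit set -/
theorem bN_limit {ι : Type} [Fintype ι] {P : ℝ} (hP : 0 < P)
    {F : EuclideanSpace ℝ ι → EuclideanSpace ℝ ι} (hs : ContDiff ℝ ∞ F) (hF : PerField P F)
    {φ : ℝ → EuclideanSpace ℝ ι → EuclideanSpace ℝ ι} (hφ : IsFlow F φ)
    (x0 x : EuclideanSpace ℝ ι) (n : ℕ → ℕ) (hn : Tendsto n atTop atTop)
    (y : ℕ → EuclideanSpace ℝ ι) (k : ℕ → ι → ℤ)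
    (hy : ∀ j, φ (n j) x0 = y j + lat P (k j)) (hx : Tendsto y atTop (𝓝 x)) :
    bN P F x0 x = 0 := by
  obtain ⟨K, B, hK0, _, hKL, _, hgr, heq, _⟩ := gen_flow hP hs hF hφ
  have hFc : Continuous F := hs.continuous
  refine le_antisymm ?_ bot_le
  refine ENNReal.le_of_forall_pos_le_add fun ε hε _ => ?_
  rw [zero_add]
  refine Filter.liminf_le_of_frequently_le' ?_
  rw [Filter.frequently_atTop]
  intro a
  have hlim : Tendsto (fun j => (1 + 1 / (1:ℝ)) * (1 + K) ^ 2 * ‖y j - x‖ ^ 2) atTop (𝓝 0) := by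
    have h1 : Tendsto (fun j => ‖y j - x‖) atTop (𝓝 0) := by
      have := (hx.sub_const x).norm
      simpa using this
    have h2 := (h1.pow 2).const_mul ((1 + 1 / (1:ℝ)) * (1 + K) ^ 2)
    simpa using h2
  have hε' : (0:ℝ) < (ε:ℝ) := by exact_mod_cast hε
  obtain ⟨j, hj1, hj2⟩ := ((hlim.eventually (gt_mem_nhds hε')).and
    (hn.eventually_ge_atTop (2 + a))).exists
  refine ⟨n j, by omega, ?_⟩
  obtain ⟨T, hT⟩ : ∃ T : ℝ, T = ((n j : ℕ) : ℝ) := ⟨_, rfl⟩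
  rw [← hT]
  have hT2 : (2:ℝ) ≤ T := by
    rw [hT]
    exact_mod_cast (by omega : 2 ≤ n j)
  have hT0 : (0:ℝ) ≤ T := by linarith
  have z1 := hT_flow P hFc hφ T hT0 x0
  have e1 : φ T x0 = y j + lat P (k j) := by rw [hT]; exact hy j
  have z2 := hT_lat P hF T hT0 x0 (y j) 0 (k j)
  have e0 : x0 + lat P (0 : ι → ℤ) = x0 := by
    ext i; simp [lat]
  rw [e0, ← e1, z1] at z2
  have z4 := hT_move P hFc K hK0 hKL T hT2 x0 (y j) x0 x 1 one_pos
  rw [← z2, mul_zero, zero_add] at z4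
  refine z4.trans ?_
  have z5 : (1 + 1 / (1:ℝ)) * (1 + K) ^ 2 * (‖x0 - x0‖ ^ 2 + ‖y j - x‖ ^ 2) ≤ (ε:ℝ) := by
    rw [sub_self, norm_zero]
    have : (1 + 1 / (1:ℝ)) * (1 + K) ^ 2 * ((0:ℝ) ^ 2 + ‖y j - x‖ ^ 2) =
      (1 + 1 / (1:ℝ)) * (1 + K) ^ 2 * ‖y j - x‖ ^ 2 := by ring
    rw [this]
    exact hj1.le
  refine (ENNReal.ofReal_le_ofReal z5).trans ?_
  rw [ENNReal.ofReal_coe_nnreal]

theorem recur (cc : Clamp (5/4)) (cx : Clamp (mm + 1/2)) (rh : Rho) {F : EE → EE}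
    {φ : ℝ → EE → EE} (h : Realz 97 (YY cc cx rh) LL F φ) (l : List Cell) (hl : Good l) :
    ∃ R : Fin 12 → ℝ, (∀ k, |R k| ≤ 1/32) ∧ ∀ R' : Fin 12 → ℝ, (∀ k, |R' k| ≤ 1/32) →
      bN LL F (pt l R' 0) (pt l R 0) = 0 := by
  classical
  obtain ⟨hD, hv, hb⟩ := good_facts l hl
  have key : ∀ D : ℕ, ∃ G : (Fin 12 → ℝ) → Fin 12 → ℝ,
      Dle (run (6 * 2 ^ (6 * D + 1)) (fun _ => false) Ty.E l) ∧
      (∀ R : Fin 12 → ℝ, (∀ k, |R k| ≤ 1/32) → (∀ k, |G R k| ≤ 1/32) ∧ ∃ m : Jx → ℤ,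
        φ (((2 ^ (6 * D + 1) : ℕ) : ℝ) * LL) (pt l R 0) =
          pt (run (6 * 2 ^ (6 * D + 1)) (fun _ => false) Ty.E l) (G R) 0 + lat LL m) ∧
      ∀ R R' : Fin 12 → ℝ, (∀ k, |R k| ≤ 1/32) → (∀ k, |R' k| ≤ 1/32) → ∀ k,
        |G R k - G R' k| ≤ (1/2) ^ (2 ^ (6 * D + 1)) * |R k - R' k| := by
    intro D
    obtain ⟨h1, -, G, h2, h3⟩ := run_zero cc cx rh h (2 ^ (6 * D + 1)) l hD (hv Ty.E)
    exact ⟨G, h1, h2, h3⟩
  choose G hDle hG hGc using key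
  have h00 : ∀ k : Fin 12, |(0 : Fin 12 → ℝ) k| ≤ 1/32 := by intro k; simp
  have hR : ∀ D k, |G D 0 k| ≤ 1/32 := fun D => (hG D 0 h00).1
  have hcomp : IsCompact (Metric.closedBall (0 : Fin 12 → ℝ) (1/32)) := isCompact_closedBall _ _
  have hmem : ∀ D, G D 0 ∈ Metric.closedBall (0 : Fin 12 → ℝ) (1/32) := by
    intro D
    rw [mem_closedBall_zero_iff, pi_norm_le_iff_of_nonneg (by norm_num)]
    intro k
    rw [Real.norm_eq_abs]
    exact hR D k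
  obtain ⟨R0, hR0, θ, hθ, hlim⟩ := hcomp.tendsto_subseq hmem
  refine ⟨R0, ?_, ?_⟩
  · rw [mem_closedBall_zero_iff, pi_norm_le_iff_of_nonneg (by norm_num)] at hR0
    intro k
    rw [← Real.norm_eq_abs]
    exact hR0 k
  intro R' hR'
  have hclose : ∀ D i tr, |rl Ty.E 1 0 (run (6 * 2 ^ (6 * D + 1)) (fun _ => false) Ty.E l) i tr
      - rl Ty.E 1 0 l i tr| ≤ (mm + 1) / lam ^ D := by
    intro D i tr
    have hr := run_good (6 * D) 6 l hl
    rw [mul_comm (2 ^ (6 * D + 1)) 6] at hr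
    rw [abs_sub_comm]
    exact rl_close2 D l _ hD (hDle D) (hb _) hr.symm i tr
  have hlam : Tendsto (fun D : ℕ => ((mm : ℝ) + 1) / lam ^ D) atTop (𝓝 0) := by
    apply tendsto_const_nhds.div_atTop
    apply tendsto_pow_atTop_atTop_of_one_lt
    unfold Pool.Agent.Aub.lam
    norm_num
  have hS : ∀ i tr, Tendsto (fun j => rl Ty.E 1 0
      (run (6 * 2 ^ (6 * (θ j) + 1)) (fun _ => false) Ty.E l) i tr) atTop
      (𝓝 (rl Ty.E 1 0 l i tr)) := by
    intro i tr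
    rw [tendsto_iff_norm_sub_tendsto_zero]
    refine squeeze_zero (fun j => norm_nonneg _) (fun j => ?_) (hlam.comp hθ.tendsto_atTop)
    rw [Real.norm_eq_abs]
    exact hclose (θ j) i tr
  have hRlim : Tendsto (fun j => G (θ j) R') atTop (𝓝 R0) := by
    rw [tendsto_pi_nhds]
    intro k
    have h1 := (tendsto_pi_nhds.1 hlim) k
    have h2 : Tendsto (fun j => G (θ j) R' k - G (θ j) 0 k) atTop (𝓝 0) := by
      have h3 : Tendsto (fun j : ℕ => ((1/2 : ℝ)) ^ (θ j) * |R' k - (0 : Fin 12 → ℝ) k|) atTop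
          (𝓝 0) := by
        have := ((tendsto_pow_atTop_nhds_zero_of_lt_one (by norm_num : (0:ℝ) ≤ 1/2)
          (by norm_num)).comp hθ.tendsto_atTop).mul_const |R' k - (0 : Fin 12 → ℝ) k|
        simpa using this
      refine squeeze_zero_norm (fun j => ?_) h3
      rw [Real.norm_eq_abs]
      refine (hGc (θ j) R' 0 hR' h00 k).trans ?_
      refine mul_le_mul_of_nonneg_right ?_ (abs_nonneg _)
      refine pow_le_pow_of_le_one (by norm_num) (by norm_num) ?_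
      have h1 : 6 * (θ j) + 1 < 2 ^ (6 * (θ j) + 1) := Nat.lt_two_pow_self
      omega
    have h4 := h1.add h2
    rw [add_zero] at h4
    refine h4.congr fun j => ?_
    simp
  have hm : ∀ j, ∃ m : Jx → ℤ, φ (((2 ^ (6 * θ j + 1) : ℕ) : ℝ) * LL) (pt l R' 0) =
      pt (run (6 * 2 ^ (6 * θ j + 1)) (fun _ => false) Ty.E l) (G (θ j) R') 0 + lat LL m :=
    fun j => (hG (θ j) R' hR').2
  choose m hm using hm
  have hn : Tendsto (fun j : ℕ => 2 ^ (6 * (θ j) + 1) * 2 ^ 40) atTop atTop := by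
    refine tendsto_atTop_mono (fun j => ?_) hθ.tendsto_atTop
    have h1 : 6 * (θ j) + 1 < 2 ^ (6 * (θ j) + 1) := Nat.lt_two_pow_self
    have h2 : 2 ^ (6 * (θ j) + 1) ≤ 2 ^ (6 * (θ j) + 1) * 2 ^ 40 :=
      Nat.le_mul_of_pos_right _ (by norm_num)
    exact le_trans (by omega) h2
  refine bN_limit (P := LL) (Fact.out) h.smooth h.per h.flow (pt l R' 0) (pt l R0 0)
    (fun j : ℕ => 2 ^ (6 * (θ j) + 1) * 2 ^ 40) hn
    (fun j => pt (run (6 * 2 ^ (6 * (θ j) + 1)) (fun _ => false) Ty.E l) (G (θ j) R') 0)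
    m ?_ ?_
  · intro j
    have h1 := hm j
    have h2 : ((2 ^ (6 * (θ j) + 1) * 2 ^ 40 : ℕ) : ℝ) = ((2 ^ (6 * (θ j) + 1) : ℕ) : ℝ) * LL := by
      unfold Pool.Agent.Aub.LL
      push_cast
      ring
    rw [h2]
    exact h1
  · exact Q23_tendsto _ _ _ _ hS hRlim

end Pool.Agent.Y203.QC
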