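import Mathlib
import Pool.Agent.Y203.QC.Key
import Pool.Agent.Y203.QC.Q23
import Pool.Agent.Y203.QC.Q20

/-!
MP_7d4c8f_an Q1: the path of Aubry points and its modulus of continuity
-/

set_option autoImplicit false

open Set Filter Topology MeasureTheory
open scoped ContDiff

namespace Pool.Agent.Y203.QC

open Pool.Agent.Aub (mm lam Stk dt stp Sc S1 S2 Qx gT gt cT ct hC hX Dg Ty stg rho mu posn peel cE cF
  DD rb subTy subP subC sub broken Clamp Ix Zs stk reg mkz Wt f0 f1 f4 f6 g0 g1 M0 M4 M6 N1 tyj pj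
  Cell sT Dle vb tyn Jx EE mkp pz py pth LL psi Rho Realz Th yo PerField IsFlow action hT lat IsCurve)
open Pool.Agent.QA (bN bN_move gen_flow)

/-- a bound for the norms of the states -/
noncomputable def ptbd : ℝ := Real.sqrt (∑ _i : Jx, ((mm : ℝ) + 1) ^ 2)

theorem pt_mem (l : List Cell) (hD : Dle l) (R : Fin 12 → ℝ) (hR : ∀ k, |R k| ≤ 1/32) :
    pt l R 0 ∈ Metric.closedBall (0 : EE) ptbd := by
  have hmm : (0 : ℝ) ≤ mm := by positivity
  rw [mem_closedBall_zero_iff, EuclideanSpace.norm_eq, ptbd]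
  refine Real.sqrt_le_sqrt (Finset.sum_le_sum fun i _ => ?_)
  have key : ‖(pt l R 0) i‖ ≤ (mm : ℝ) + 1 := by
    rw [Real.norm_eq_abs]
    rcases i with (⟨a, b⟩ | k) | k
    · have h1 := rl_range l hD Ty.E 1 0 a b
      have h2 : (pt l R 0) (Sum.inl (Sum.inl (a, b))) = rl Ty.E 1 0 l a b := rfl
      rw [h2, abs_le]
      constructor <;> linarith [h1.1, h1.2.1]
    · have h2 : (pt l R 0) (Sum.inl (Sum.inr k)) = R k := rfl
      rw [h2]
      linarith [hR k]
    · fin_cases k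
      · have h2 : (pt l R 0) (Sum.inr 0) = 0 := rfl
        show |(pt l R 0) (Sum.inr 0)| ≤ _
        rw [h2, abs_zero]; linarith
      · have h2 : (pt l R 0) (Sum.inr 1) = 0 := rfl
        show |(pt l R 0) (Sum.inr 1)| ≤ _
        rw [h2, abs_zero]; linarith
  exact pow_le_pow_left₀ (norm_nonneg _) key 2

theorem path (cc : Clamp (5/4)) (cx : Clamp (mm + 1/2)) (rh : Rho) {F : EE → EE}
    {φ : ℝ → EE → EE} (h : Realz 97 (YY cc cx rh) LL F φ) :
    ∃ (C : ℝ) (f : Icc (0 : ℝ) 1 → EE), 0 < C ∧ (∀ t, bN LL F (f t) (f t) = 0) ∧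
      (∀ s t : Icc (0 : ℝ) 1, ENNReal.ofReal ((t : ℝ) - s) ≤
        ENNReal.ofReal C * bN LL F (f s) (f t)) ∧
      ∀ ε : ℝ, 0 < ε → ∃ δ : ℝ, 0 < δ ∧ ∀ s t : Icc (0 : ℝ) 1, |(s : ℝ) - t| < δ →
        bN LL F (f s) (f t) ≤ ENNReal.ofReal ε := by
  obtain ⟨C, hC, hlow⟩ := lower2 cc cx rh h
  obtain ⟨C2, hC2, hkey⟩ := key cc cx rh h
  obtain ⟨K, B, hK0, hB0, hK, -, -, -, -⟩ := gen_flow (P := LL) Fact.out h.smooth h.per h.flow
  have hFc : Continuous F := h.smooth.continuous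
  have hMM1 : (1 : ℝ) < MM := by unfold MM; norm_num
  have hch : ∀ t : Icc (0 : ℝ) 1, ∃ (a : EE) (l : ℕ → List Cell) (R : ℕ → Fin 12 → ℝ),
      (∀ j, Good (l j) ∧ (∀ k, |R j k| ≤ 1/32) ∧
        ∀ R'' : Fin 12 → ℝ, (∀ k, |R'' k| ≤ 1/32) →
          bN LL F (pt (l j) R'' 0) (pt (l j) (R j) 0) = 0) ∧
      Tendsto (fun j => val (l j)) atTop (𝓝 (v0 + (t : ℝ))) ∧
      Tendsto (fun j => pt (l j) (R j) 0) atTop (𝓝 a) := by
    intro t
    choose l hl hval using fun j => val_dense t t.2.1 t.2.2 j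
    choose R hR hRb using fun j => recur cc cx rh h (l j) (hl j)
    obtain ⟨a, -, ψ, hψ, ha⟩ := tendsto_subseq_of_bounded
      (Metric.isBounded_closedBall (x := (0 : EE)) (r := ptbd))
      (x := fun j => pt (l j) (R j) 0)
      (fun j => pt_mem (l j) (good_facts _ (hl j)).1 (R j) (hR j))
    refine ⟨a, fun j => l (ψ j), fun j => R (ψ j), fun j => ⟨hl _, hR _, hRb _⟩, ?_, ha⟩
    have h1 : Tendsto (fun j => val (l j)) atTop (𝓝 (v0 + (t : ℝ))) := by
      rw [tendsto_iff_dist_tendsto_zero]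
      refine squeeze_zero (g := fun j : ℕ => 1 / MM ^ j) (fun _ => dist_nonneg)
        (fun j => by
          rw [Real.dist_eq]
          have := hval j
          rwa [show val (l j) - (v0 + (t : ℝ)) = val (l j) - v0 - t by ring]) ?_
      have h2 : Tendsto (fun j : ℕ => (1 / (MM : ℝ)) ^ j) atTop (𝓝 0) := by
        refine tendsto_pow_atTop_nhds_zero_of_lt_one ?_ ?_
        · positivity
        · rw [div_lt_one (by positivity)]; exact hMM1
      exact h2.congr fun j => by rw [div_pow, one_pow]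
    exact h1.comp hψ.tendsto_atTop
  choose f l R hlR hval hpt using hch
  have hpt0 : ∀ t : Icc (0 : ℝ) 1, Tendsto (fun j => ‖pt (l t j) (R t j) 0 - f t‖) atTop (𝓝 0) :=
    fun t => tendsto_iff_norm_sub_tendsto_zero.1 (hpt t)
  have hpt0' : ∀ t : Icc (0 : ℝ) 1, Tendsto (fun j => ‖f t - pt (l t j) (R t j) 0‖) atTop (𝓝 0) :=
    fun t => (hpt0 t).congr fun j => norm_sub_rev _ _
  have hC0 : ENNReal.ofReal C ≠ 0 := by
    rw [Ne, ENNReal.ofReal_eq_zero, not_le]; exact hC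
  refine ⟨C, f, hC, ?_, ?_, ?_⟩
  · intro t
    have h1 : ∀ j, bN LL F (f t) (f t) ≤ ENNReal.ofReal ((1 + 1 / 1) * (1 + K) ^ 2 *
        (‖pt (l t j) (R t j) 0 - f t‖ ^ 2 + ‖pt (l t j) (R t j) 0 - f t‖ ^ 2)) := by
      intro j
      have h2 := bN_move (P := LL) hFc K hK0 hK (pt (l t j) (R t j) 0) (pt (l t j) (R t j) 0)
        (f t) (f t) 1 one_pos
      rw [(hlR t j).2.2 (R t j) (hlR t j).2.1, mul_zero, zero_add] at h2
      exact h2
    have h2 : Tendsto (fun j => ENNReal.ofReal ((1 + 1 / 1) * (1 + K) ^ 2 *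
        (‖pt (l t j) (R t j) 0 - f t‖ ^ 2 + ‖pt (l t j) (R t j) 0 - f t‖ ^ 2))) atTop
        (𝓝 (ENNReal.ofReal 0)) := by
      refine ENNReal.tendsto_ofReal ?_
      have h4 := (((hpt0 t).pow 2).add ((hpt0 t).pow 2)).const_mul ((1 + 1 / 1 : ℝ) * (1 + K) ^ 2)
      simpa using h4
    have h3 := ge_of_tendsto' h2 h1
    rw [ENNReal.ofReal_zero] at h3
    exact le_antisymm h3 bot_le
  · intro s0 t
    have hstep : ∀ j, ENNReal.ofReal (val (l t j) - val (l s0 j)) ≤
        ENNReal.ofReal C * bN LL F (pt (l s0 j) (R s0 j) 0) (pt (l t j) (R t j) 0) := by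
      intro j
      rw [← ENNReal.div_le_iff' hC0 ENNReal.ofReal_ne_top]
      unfold bN
      refine le_liminf_of_le (by isBoundedDefault) ?_
      filter_upwards [eventually_ge_atTop 1] with n hn
      rw [ENNReal.div_le_iff' hC0 ENNReal.ofReal_ne_top]
      obtain ⟨g1, g2, -⟩ := good_facts _ (hlR s0 j).1
      obtain ⟨g1', g2', -⟩ := good_facts _ (hlR t j).1
      exact hlow _ _ g1 g1' (g2 _) (g2' _) _ _ (hlR s0 j).2.1 _ (by exact_mod_cast hn)
    have hs : ∀ s : ℝ, 0 < s → ENNReal.ofReal ((t : ℝ) - s0) ≤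
        ENNReal.ofReal C * (ENNReal.ofReal (1 + s) * bN LL F (f s0) (f t)) := by
      intro s hs
      have h1 : Tendsto (fun j => ENNReal.ofReal (val (l t j) - val (l s0 j))) atTop
          (𝓝 (ENNReal.ofReal ((v0 + (t : ℝ)) - (v0 + (s0 : ℝ))))) :=
        ENNReal.tendsto_ofReal ((hval t).sub (hval s0))
      rw [add_sub_add_left_eq_sub] at h1
      have h2 : Tendsto (fun j => ENNReal.ofReal C * (ENNReal.ofReal (1 + s) * bN LL F (f s0) (f t) +
          ENNReal.ofReal ((1 + 1 / s) * (1 + K) ^ 2 * (‖f s0 - pt (l s0 j) (R s0 j) 0‖ ^ 2 +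
            ‖f t - pt (l t j) (R t j) 0‖ ^ 2)))) atTop
          (𝓝 (ENNReal.ofReal C * (ENNReal.ofReal (1 + s) * bN LL F (f s0) (f t) +
            ENNReal.ofReal 0))) := by
        refine ENNReal.Tendsto.const_mul (Tendsto.add tendsto_const_nhds ?_)
          (Or.inr ENNReal.ofReal_ne_top)
        refine ENNReal.tendsto_ofReal ?_
        have h4 := (((hpt0' s0).pow 2).add ((hpt0' t).pow 2)).const_mul
          ((1 + 1 / s : ℝ) * (1 + K) ^ 2)
        simpa using h4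
      have h3 := le_of_tendsto_of_tendsto' h1 h2 (fun j => (hstep j).trans
        (mul_le_mul_right (bN_move (P := LL) hFc K hK0 hK (f s0) (f t) (pt (l s0 j) (R s0 j) 0)
          (pt (l t j) (R t j) 0) s hs) _))
      rwa [ENNReal.ofReal_zero, add_zero] at h3
    have h1 : Tendsto (fun n : ℕ => ENNReal.ofReal C *
        (ENNReal.ofReal (1 + 1 / ((n : ℝ) + 1)) * bN LL F (f s0) (f t))) atTop
        (𝓝 (ENNReal.ofReal C * (ENNReal.ofReal (1 + 0) * bN LL F (f s0) (f t)))) := by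
      refine ENNReal.Tendsto.const_mul (ENNReal.Tendsto.mul_const ?_ (Or.inl ?_))
        (Or.inr ENNReal.ofReal_ne_top)
      · exact ENNReal.tendsto_ofReal (tendsto_one_div_add_atTop_nhds_zero_nat.const_add 1)
      · rw [add_zero, ENNReal.ofReal_one]; exact one_ne_zero
    have h2 := ge_of_tendsto' h1 (fun n => hs _ (by positivity))
    rwa [add_zero, ENNReal.ofReal_one, one_mul] at h2
  · intro ε hε
    have hlam1 : (1 : ℝ) < lam := by unfold lam; norm_num
    have hlim : Tendsto (fun D : ℕ => 2 * (C2 * (1 / lam) ^ D)) atTop (𝓝 0) := by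
      have h2 : Tendsto (fun j : ℕ => (1 / (lam : ℝ)) ^ j) atTop (𝓝 0) := by
        refine tendsto_pow_atTop_nhds_zero_of_lt_one ?_ ?_
        · positivity
        · rw [div_lt_one (by positivity)]; exact hlam1
      simpa using (h2.const_mul C2).const_mul 2
    obtain ⟨D, hD⟩ := (hlim.eventually (gt_mem_nhds hε)).exists
    have hMMD : (0 : ℝ) < 1 / MM ^ (6 * D) := by positivity
    refine ⟨1 / MM ^ (6 * D), hMMD, ?_⟩
    intro s t hst
    -- eventually the values are close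
    have hev : ∀ᶠ j in atTop, |val (l s j) - val (l t j)| < 1 / MM ^ (6 * D) := by
      have h1 : Tendsto (fun j => |val (l s j) - val (l t j)|) atTop
          (𝓝 |(v0 + (s : ℝ)) - (v0 + (t : ℝ))|) := ((hval s).sub (hval t)).abs
      rw [add_sub_add_left_eq_sub] at h1
      exact h1.eventually (gt_mem_nhds hst)
    have hbd : ∀ᶠ j in atTop, bN LL F (f s) (f t) ≤ ENNReal.ofReal (2 * (C2 * (1 / lam) ^ D)) +
        ENNReal.ofReal ((1 + 1 / 1) * (1 + K) ^ 2 * (‖pt (l s j) (R s j) 0 - f s‖ ^ 2 +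
          ‖pt (l t j) (R t j) 0 - f t‖ ^ 2)) := by
      filter_upwards [hev] with j hj
      have h1 := hkey D (l s j) (l t j) (hlR s j).1 (hlR t j).1 hj (R s j) (R t j) (hlR s j).2.1
        (hlR t j).2.2
      have h2 := bN_move (P := LL) hFc K hK0 hK (pt (l s j) (R s j) 0) (pt (l t j) (R t j) 0)
        (f s) (f t) 1 one_pos
      refine h2.trans (add_le_add ?_ le_rfl)
      have e : (2 : ℝ) * (C2 * (1 / lam) ^ D) = (1 + 1) * (C2 * (1 / lam) ^ D) := by ring
      rw [e, ENNReal.ofReal_mul (by norm_num : (0 : ℝ) ≤ 1 + 1)]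
      exact mul_le_mul_right h1 _
    have hlim2 : Tendsto (fun j => ENNReal.ofReal (2 * (C2 * (1 / lam) ^ D)) +
        ENNReal.ofReal ((1 + 1 / 1) * (1 + K) ^ 2 * (‖pt (l s j) (R s j) 0 - f s‖ ^ 2 +
          ‖pt (l t j) (R t j) 0 - f t‖ ^ 2))) atTop
        (𝓝 (ENNReal.ofReal (2 * (C2 * (1 / lam) ^ D)) + ENNReal.ofReal 0)) := by
      refine Tendsto.add tendsto_const_nhds (ENNReal.tendsto_ofReal ?_)
      have h4 := (((hpt0 s).pow 2).add ((hpt0 t).pow 2)).const_mul ((1 + 1 / 1 : ℝ) * (1 + K) ^ 2)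
      simpa using h4
    have h3 := ge_of_tendsto hlim2 hbd
    rw [ENNReal.ofReal_zero, add_zero] at h3
    exact h3.trans (ENNReal.ofReal_le_ofReal hD.le)

end Pool.Agent.Y203.QC
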