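import Mathlib
import Pool.Agent.Y203.QC.Path
import Pool.Agent.Y839.QC.ZSmooth
import Pool.Agent.Helper961.Aub.XClamp
import Pool.Agent.Helper961.Aub.ZRho
import Pool.Agent.Helper961.Aub.ZReal
import Pool.Agent.Helper981.QA.P02
import Pool.Agent.Helper981.QA.P05
import Pool.Agent.Helper981.QA.P07
import Pool.Agent.Helper981.QA.P12
import Pool.Agent.Helper981.QA.P15

/-!
MP_7d4c8f_an Q1: the quotient Aubry set can contain an arc
-/

set_option autoImplicit false

open Set Filter Topology MeasureTheory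
open scoped ContDiff

namespace Pool.Agent.Y203.QC

open Pool.Agent.Aub (mm lam Stk dt stp Sc S1 S2 Qx gT gt cT ct hC hX Dg Ty stg rho mu posn peel cE cF
  DD rb subTy subP subC sub broken Clamp Ix Zs stk reg mkz Wt f0 f1 f4 f6 g0 g1 M0 M4 M6 N1 tyj pj
  Cell sT Dle vb tyn Jx EE mkp pz py pth LL psi Rho Realz Th yo PerField IsFlow action hT lat
  clamp_exists rho_exists realize)
open Pool.Agent.QA (bN bN_bound LF_smooth LF_hess LF_super LF_complete LF_flow LF_alpha aubry_space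
  barrier_eq LF Torus Phase prj cov IsExtremal IsTonelli IsELFlow IsInv Lc IsAlpha IsCurve hn barrier
  AubrySet)

theorem arc_points {F : EE → EE} {φ : ℝ → EE → EE} (hs : ContDiff ℝ ∞ F) (hF : PerField LL F)
    (hφ : IsFlow F φ) (C : ℝ) (hC : 0 < C) (f : Icc (0 : ℝ) 1 → EE)
    (hA : ∀ t, bN LL F (f t) (f t) = 0)
    (hlow : ∀ s t : Icc (0 : ℝ) 1,
      ENNReal.ofReal ((t : ℝ) - s) ≤ ENNReal.ofReal C * bN LL F (f s) (f t))
    (hup : ∀ ε : ℝ, 0 < ε → ∃ δ : ℝ, 0 < δ ∧ ∀ s t : Icc (0 : ℝ) 1, |(s : ℝ) - t| < δ →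
        bN LL F (f s) (f t) ≤ ENNReal.ofReal ε)
    {X : Type} [MetricSpace X] (π : AubrySet LL (LF LL F) 0 0 → X)
    (hπ : ∀ x y : AubrySet LL (LF LL F) 0 0, ((dist (π x) (π y) : ℝ) : EReal) =
      barrier LL (LF LL F) 0 0 x y + barrier LL (LF LL F) 0 0 y x) :
    ∃ γ : Icc (0 : ℝ) 1 → X, Continuous γ ∧ Function.Injective γ := by
  have hmem : ∀ t, prj LL (f t) ∈ AubrySet LL (LF LL F) 0 0 := by
    intro t
    show barrier LL (LF LL F) 0 0 (prj LL (f t)) (prj LL (f t)) = 0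
    rw [barrier_eq LL hs hF hφ, hA t]
    rfl
  have hdist : ∀ s t : Icc (0 : ℝ) 1,
      ENNReal.ofReal (dist (π ⟨prj LL (f s), hmem s⟩) (π ⟨prj LL (f t), hmem t⟩)) =
      bN LL F (f s) (f t) + bN LL F (f t) (f s) := by
    intro s t
    have h1 := hπ ⟨prj LL (f s), hmem s⟩ ⟨prj LL (f t), hmem t⟩
    simp only at h1
    rw [barrier_eq LL hs hF hφ, barrier_eq LL hs hF hφ, ← EReal.coe_ennreal_add] at h1
    set d := dist (π ⟨prj LL (f s), hmem s⟩) (π ⟨prj LL (f t), hmem t⟩) with hd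
    have hd0 : 0 ≤ d := dist_nonneg
    have h2 : ((ENNReal.ofReal d : ENNReal) : EReal) = (d : EReal) := by
      rw [EReal.coe_ennreal_ofReal, max_eq_left hd0]
    rw [← h2] at h1
    exact EReal.coe_ennreal_injective h1
  refine ⟨fun t => π ⟨prj LL (f t), hmem t⟩, ?_, ?_⟩
  · rw [Metric.continuous_iff]
    intro t ε hε
    obtain ⟨δ, hδ, h⟩ := hup (ε / 3) (by positivity)
    refine ⟨δ, hδ, fun s hst => ?_⟩
    have hst' : |(s : ℝ) - t| < δ := by
      rw [Subtype.dist_eq, Real.dist_eq] at hst; exact hst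
    have h1 := h s t hst'
    have h2 := h t s (by rw [abs_sub_comm]; exact hst')
    have h3 : ENNReal.ofReal (dist (π ⟨prj LL (f s), hmem s⟩) (π ⟨prj LL (f t), hmem t⟩)) ≤
        ENNReal.ofReal (ε / 3 + ε / 3) := by
      rw [hdist s t, ENNReal.ofReal_add (by positivity) (by positivity)]
      exact add_le_add h1 h2
    have h4 := (ENNReal.ofReal_le_ofReal_iff (by positivity)).1 h3
    linarith
  · have key : ∀ s t : Icc (0 : ℝ) 1, (t : ℝ) - s ≤
        C * dist (π ⟨prj LL (f s), hmem s⟩) (π ⟨prj LL (f t), hmem t⟩) := by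
      intro s t
      have hd0 : 0 ≤ dist (π ⟨prj LL (f s), hmem s⟩) (π ⟨prj LL (f t), hmem t⟩) := dist_nonneg
      have h5 : ENNReal.ofReal ((t : ℝ) - s) ≤
          ENNReal.ofReal (C * dist (π ⟨prj LL (f s), hmem s⟩) (π ⟨prj LL (f t), hmem t⟩)) := by
        rw [ENNReal.ofReal_mul hC.le, hdist s t]
        exact (hlow s t).trans (mul_le_mul_right le_self_add _)
      exact (ENNReal.ofReal_le_ofReal_iff (mul_nonneg hC.le hd0)).1 h5
    intro s t hst
    simp only at hst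
    have h1 := key s t
    have h2 := key t s
    rw [hst, dist_self, mul_zero] at h1
    rw [hst, dist_self, mul_zero] at h2
    exact Subtype.ext (by linarith)

theorem result_aux : ∃ (ι : Type) (_ : Fintype ι) (P : ℝ) (_ : Fact (0 < P)) (L : Phase P ι → ℝ)
    (Φ : ℝ → Phase P ι → Phase P ι) (c : ι → ℝ) (a : ℝ),
    IsTonelli P L ∧ IsELFlow P L Φ ∧ IsAlpha P L Φ c a ∧
    ∃ (X : Type) (_ : MetricSpace X) (π : AubrySet P L c a → X),
      Function.Surjective π ∧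
      (∀ x y : AubrySet P L c a, ((dist (π x) (π y) : ℝ) : EReal) =
        barrier P L c a x y + barrier P L c a y x) ∧
      (∃ γ : Icc (0 : ℝ) 1 → X, Continuous γ ∧ Function.Injective γ) ∧
      ∃ S : Set X, IsConnected S ∧ S.Nontrivial := by
  obtain ⟨cc⟩ := clamp_exists (5/4) (by norm_num) (by norm_num)
  obtain ⟨cx⟩ := clamp_exists (mm + 1/2) (by norm_num [mm]) (by norm_num [mm])
  obtain ⟨rh⟩ := rho_exists
  obtain ⟨hY, hP⟩ := YY_smooth cc cx rh
  obtain ⟨F, φ, h⟩ := realize 97 LL (by norm_num [LL]) (YY cc cx rh) hY hP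
  obtain ⟨Φ, hΦ1, hΦ2, hΦ3⟩ := LF_flow LL h.smooth h.per h.flow
  obtain ⟨X, hX, π, hπ1, hπ2⟩ := aubry_space LL h.smooth h.per h.flow
  obtain ⟨C, f, hC, hA, hlow, hup⟩ := path cc cx rh h
  obtain ⟨γ, hγ, hi⟩ := arc_points h.smooth h.per h.flow C hC f hA hlow hup π hπ2
  refine ⟨Jx, inferInstance, LL, inferInstance, LF LL F, Φ, 0, 0,
    ⟨LF_smooth LL h.smooth h.per, LF_hess LL h.per, LF_super LL h.smooth h.per,
      LF_complete LL h.smooth h.per h.flow⟩,
    hΦ1, LF_alpha LL h.smooth h.per h.flow Φ hΦ2 hΦ3,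
    X, hX, π, hπ1, hπ2, ⟨γ, hγ, hi⟩, Set.range γ, isConnected_range hγ, ?_⟩
  refine ⟨γ ⟨0, by simp⟩, mem_range_self _, γ ⟨1, by simp⟩, mem_range_self _, fun h0 => ?_⟩
  have := hi h0
  simp at this

end Pool.Agent.Y203.QC
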